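import Pool.Agent.Work.MP_9999b5_mm.Interface

/-! Block ARC (helper67): elementary facts on arcs. -/

set_option autoImplicit false

namespace Pool.MM15

open Finset

namespace ARC

lemma val_sub_nat {m : ℕ} [NeZero m] (y : ZMod m) (l : ℕ) (hl : l ≤ m) :
    (l ≤ y.val → (y - (l : ZMod m)).val = y.val - l) ∧
    (y.val < l → (y - (l : ZMod m)).val = y.val + m - l) := by
  have hy : y.val < m := ZMod.val_lt y
  have hy' : ((y.val : ℕ) : ZMod m) = y := ZMod.natCast_zmod_val y
  constructor
  · intro h
    have e : y - (l : ZMod m) = ((y.val - l : ℕ) : ZMod m) := by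
      rw [Nat.cast_sub h, hy']
    rw [e, ZMod.val_natCast_of_lt (by omega)]
  · intro h
    have e : y - (l : ZMod m) = ((y.val + m - l : ℕ) : ZMod m) := by
      rw [Nat.cast_sub (by omega), Nat.cast_add, hy', ZMod.natCast_self, add_zero]
    rw [e, ZMod.val_natCast_of_lt (by omega)]

lemma eq_add_val {m : ℕ} [NeZero m] (y : ZMod m) (u len v : ℕ) (hu : u + len ≤ v) (hv : v ≤ m)
    (h : (y - (u : ZMod m)).val < len) : y.val < v ∧ u ≤ y.val := by
  have h1 : ((((y - (u : ZMod m)).val : ℕ)) : ZMod m) = y - (u : ZMod m) :=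
    ZMod.natCast_zmod_val _
  have h2 : y = ((u + (y - (u : ZMod m)).val : ℕ) : ZMod m) := by
    rw [Nat.cast_add, h1]; ring
  have h3 : y.val = u + (y - (u : ZMod m)).val := by
    conv_lhs => rw [h2]
    rw [ZMod.val_natCast_of_lt (by omega)]
  omega

lemma mem_arc {n b m : ℕ} {a : ZMod m} {len : ℕ} {p : Fin n} :
    p ∈ arc n b m a len ↔ b ≤ p.val ∧ (((p.val - b : ℕ) : ZMod m) - a).val < len := by
  simp [arc]

end ARC

theorem stmt_ARC : Stmt_ARC := by
  intro n b m _ hn
  refine ⟨?_, ?_, ?_, ?_, ?_⟩
  · intro a len hlen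
    have h : (arc n b m a len).card = (Finset.range len).card := by
      refine Finset.card_nbij (fun p => (((p.val - b : ℕ) : ZMod m) - a).val) ?_ ?_ ?_
      · intro p hp
        have hp := ARC.mem_arc.1 (Finset.mem_coe.1 hp)
        exact Finset.mem_coe.2 (Finset.mem_range.2 hp.2)
      · intro p hp q hq hpq
        have hp := ARC.mem_arc.1 (Finset.mem_coe.1 hp)
        have hq := ARC.mem_arc.1 (Finset.mem_coe.1 hq)
        have h1 := ZMod.val_injective m hpq
        have h2 : (((p.val - b : ℕ)) : ZMod m) = ((q.val - b : ℕ) : ZMod m) :=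
          sub_left_injective h1
        have h3 := congrArg ZMod.val h2
        have p1 := p.isLt
        have q1 := q.isLt
        rw [ZMod.val_natCast_of_lt (by omega), ZMod.val_natCast_of_lt (by omega)] at h3
        apply Fin.ext
        omega
      · intro i hi
        have hi := Finset.mem_range.1 (Finset.mem_coe.1 hi)
        have hv : (a + (i : ZMod m)).val < m := ZMod.val_lt _
        refine ⟨⟨b + (a + (i : ZMod m)).val, by omega⟩, ?_, ?_⟩
        · refine Finset.mem_coe.2 (ARC.mem_arc.2 ⟨by simp, ?_⟩)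
          simp only [Nat.add_sub_cancel_left, ZMod.natCast_zmod_val, add_sub_cancel_left]
          rw [ZMod.val_natCast_of_lt (by omega)]
          exact hi
        · simp only [Nat.add_sub_cancel_left, ZMod.natCast_zmod_val, add_sub_cancel_left]
          rw [ZMod.val_natCast_of_lt (by omega)]
    rw [h, Finset.card_range]
  · intro a u v len len' h1 h2
    rw [Finset.disjoint_left]
    intro p hp hq
    have hp := (ARC.mem_arc.1 hp).2
    have hq := (ARC.mem_arc.1 hq).2
    rw [← sub_sub] at hp hq
    have h3 := ARC.eq_add_val _ u len v h1 (by omega) hp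
    have h4 := ARC.eq_add_val _ v len' (v + len') le_rfl h2 hq
    omega
  · intro a len c d hd
    rw [Finset.disjoint_left]
    intro p hp hq
    have hp := (ARC.mem_arc.1 hp).1
    have hq : c ≤ p.val ∧ p.val < d := by simpa [iv] using hq
    omega
  · intro a l1 l2 f hl
    classical
    have hdis : Disjoint (arc n b m a l1) (arc n b m (a + (l1 : ZMod m)) l2) := by
      rw [Finset.disjoint_left]
      intro p hp hq
      have hp := (ARC.mem_arc.1 hp).2
      have hq := (ARC.mem_arc.1 hq).2
      rw [← sub_sub] at hq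
      have h4 := ARC.eq_add_val _ l1 l2 (l1 + l2) le_rfl hl hq
      omega
    rw [← Finset.sum_union hdis]
    congr 1
    ext p
    rw [Finset.mem_union, ARC.mem_arc, ARC.mem_arc, ARC.mem_arc, ← sub_sub]
    set y : ZMod m := ((p.val - b : ℕ) : ZMod m) - a with hy
    have h5 := ARC.val_sub_nat y l1 (by omega)
    have h6 : y.val < m := ZMod.val_lt y
    constructor
    · rintro ⟨h1, h2⟩
      rcases lt_or_ge y.val l1 with h | h
      · exact Or.inl ⟨h1, h⟩
      · right
        have := h5.1 h
        exact ⟨h1, by omega⟩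
    · rintro (⟨h1, h2⟩ | ⟨h1, h2⟩)
      · exact ⟨h1, by omega⟩
      · refine ⟨h1, ?_⟩
        rcases lt_or_ge y.val l1 with h | h
        · omega
        · have := h5.1 h
          omega
  · intro a
    ext p
    rw [ARC.mem_arc]
    have h1 := p.isLt
    have h2 : (((p.val - b : ℕ) : ZMod m) - a).val < m := ZMod.val_lt _
    simp only [iv, Finset.mem_filter, Finset.mem_univ, true_and]
    constructor
    · rintro ⟨h3, -⟩
      exact ⟨h3, h1⟩
    · rintro ⟨h3, -⟩
      exact ⟨h3, h2⟩

end Pool.MM15
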