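import Pool.Agent.Work.MP_9999b5_mm.Interface

set_option autoImplicit false

/-! CNT: double counting over the choice of the blocks. -/

namespace Pool.MM15

open Finset

namespace CNT

theorem iv_card {n a b : ℕ} (h : b ≤ n) : (iv n a b).card = b - a := by
  classical
  have h1 : (iv n a b).image (fun p : Fin n => p.val) = Finset.Ico a b := by
    ext i
    simp only [iv, mem_image, mem_filter, mem_univ, true_and, mem_Ico]
    constructor
    · rintro ⟨p, hp, rfl⟩; exact hp
    · rintro hi
      exact ⟨⟨i, by omega⟩, hi, rfl⟩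
  rw [← card_image_of_injective (iv n a b) (f := fun p : Fin n => p.val) Fin.val_injective, h1,
    Nat.card_Ico]

theorem blk_card {n k c q : ℕ} (hc : c < q) (hq : q * k ≤ n) : (blk n k c).card = k := by
  have h1 : (c + 1) * k ≤ q * k := Nat.mul_le_mul_right _ hc
  rw [blk, iv_card (h1.trans hq)]
  rw [Nat.add_mul, one_mul]; omega

theorem blk_disj {n k c c' : ℕ} (h : c ≠ c') : Disjoint (blk n k c) (blk n k c') := by
  rw [Finset.disjoint_left]
  intro p hp hp'
  simp only [blk, iv, mem_filter, mem_univ, true_and] at hp hp'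
  rcases Nat.lt_or_ge c c' with h1 | h1
  · have : (c + 1) * k ≤ c' * k := Nat.mul_le_mul_right _ h1
    omega
  · have : (c' + 1) * k ≤ c * k := Nat.mul_le_mul_right _ (by omega)
    omega

/-- the set of the blocks with sum at most zero -/
noncomputable def neg {n : ℕ} (x : Fin n → ℝ) (k q : ℕ) (s : Equiv.Perm (Fin n)) : Finset ℕ := by
  classical
  exact (range q).filter (fun c => sm x (blk n k c) s ≤ 0)

/-- the set of the blocks with positive sum -/
noncomputable def ps {n : ℕ} (x : Fin n → ℝ) (k q : ℕ) (s : Equiv.Perm (Fin n)) : Finset ℕ := by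
  classical
  exact (range q).filter (fun c => 0 < sm x (blk n k c) s)

theorem ps_card {n : ℕ} (x : Fin n → ℝ) (k q : ℕ) (s : Equiv.Perm (Fin n)) :
    (ps x k q s).card = nn x k q s := rfl

theorem neg_card {n : ℕ} (x : Fin n → ℝ) (k q : ℕ) (s : Equiv.Perm (Fin n)) :
    (neg x k q s).card = q - nn x k q s := by
  classical
  have h := Finset.card_filter_add_card_filter_not (s := range q)
    (fun c => 0 < sm x (blk n k c) s)
  have h2 : (range q).filter (fun c => ¬ 0 < sm x (blk n k c) s) = neg x k q s := by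
    rw [neg]
    apply filter_congr
    intro c _
    exact not_lt
  rw [h2, card_range] at h
  have h3 : ((range q).filter (fun c => 0 < sm x (blk n k c) s)).card = nn x k q s := rfl
  omega

theorem neg_ps_disj {n : ℕ} (x : Fin n → ℝ) (k q : ℕ) (s : Equiv.Perm (Fin n)) :
    Disjoint (neg x k q s) (ps x k q s) := by
  classical
  rw [Finset.disjoint_left]
  intro c hc hc'
  simp only [neg, ps, mem_filter] at hc hc'
  linarith [hc.2, hc'.2]

/-- the law of a choice of `j` blocks -/
theorem law1 (hE : Stmt_EXC) {n k j q : ℕ} (x : Fin n → ℝ) (hjq : j ≤ q) (hq : q * k ≤ n)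
    {J : Finset ℕ} (hJ : J ∈ powersetCard j (range q)) :
    cnt (fun s => ∀ c ∈ J, sm x (blk n k c) s ≤ 0) = hh x k j := by
  classical
  obtain ⟨h1, h2⟩ := mem_powersetCard.1 hJ
  have key := hE n x (Fin j) (fun a => blk n k (J.orderEmbOfFin h2 a))
    (fun a => blk n k a.val)
    (fun a b hab => blk_disj (fun h => hab ((J.orderEmbOfFin h2).injective h)))
    (fun a b hab => blk_disj (fun h => hab (Fin.ext h)))
    (fun a => by
      rw [blk_card (mem_range.1 (h1 (J.orderEmbOfFin_mem h2 a))) hq,
        blk_card (lt_of_lt_of_le a.isLt hjq) hq])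
    (fun v => ∀ a, v a ≤ 0)
  have e1 : (fun s : Equiv.Perm (Fin n) => ∀ c ∈ J, sm x (blk n k c) s ≤ 0) =
      (fun s => ∀ a : Fin j, sm x (blk n k (J.orderEmbOfFin h2 a)) s ≤ 0) := by
    funext s
    apply propext
    constructor
    · intro h a
      exact h _ (J.orderEmbOfFin_mem h2 a)
    · intro h c hc
      have : c ∈ Set.range (J.orderEmbOfFin h2) := by
        rw [range_orderEmbOfFin]; exact hc
      obtain ⟨a, rfl⟩ := this
      exact h a
  have e2 : Neg x k j = (fun s => ∀ a : Fin j, sm x (blk n k a.val) s ≤ 0) := by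
    funext s
    apply propext
    constructor
    · intro h a
      exact h _ a.isLt
    · intro h c hc
      exact h ⟨c, hc⟩
  rw [hh, e1, e2]
  exact key

/-- the law of a choice of `j` blocks and two more -/
theorem law2 (hE : Stmt_EXC) {n k j q : ℕ} (x : Fin n → ℝ) (hjq : j + 2 ≤ q) (hq : q * k ≤ n)
    {J P : Finset ℕ} (hJ : J ∈ powersetCard j (range q)) (hP : P ∈ powersetCard 2 (range q \ J)) :
    cnt (fun s => (∀ c ∈ J, sm x (blk n k c) s ≤ 0) ∧ ∀ c ∈ P, 0 < sm x (blk n k c) s) =
      qq x k j := by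
  classical
  obtain ⟨h1, h2⟩ := mem_powersetCard.1 hJ
  obtain ⟨g1, g2⟩ := mem_powersetCard.1 hP
  have hJm : ∀ a, (J.orderEmbOfFin h2 a) ∈ J := J.orderEmbOfFin_mem h2
  have hPm : ∀ a, (P.orderEmbOfFin g2 a) ∈ P := P.orderEmbOfFin_mem g2
  have hPJ : ∀ c ∈ P, c ∉ J := fun c hc => (mem_sdiff.1 (g1 hc)).2
  have hPr : ∀ c ∈ P, c < q := fun c hc => mem_range.1 (mem_sdiff.1 (g1 hc)).1
  have key := hE n x (Fin j ⊕ Fin 2)
    (Sum.elim (fun a => blk n k (J.orderEmbOfFin h2 a)) (fun a => blk n k (P.orderEmbOfFin g2 a)))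
    (Sum.elim (fun a => blk n k a.val) (fun a => blk n k (j + a.val)))
    (by
      rintro (a | a) (b | b) hab
      · exact blk_disj (fun h => hab (by rw [(J.orderEmbOfFin h2).injective h]))
      · refine blk_disj (fun h => ?_)
        exact hPJ _ (hPm b) (h ▸ hJm a)
      · refine blk_disj (fun h => ?_)
        exact hPJ _ (hPm a) (h ▸ hJm b)
      · exact blk_disj (fun h => hab (by rw [(P.orderEmbOfFin g2).injective h])))
    (by
      rintro (a | a) (b | b) hab
      · exact blk_disj (fun h => hab (by rw [Fin.ext h]))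
      · refine blk_disj (fun h => ?_)
        have := a.isLt
        omega
      · refine blk_disj (fun h => ?_)
        have := b.isLt
        omega
      · refine blk_disj (fun h => hab ?_)
        have : a = b := Fin.ext (by omega)
        rw [this])
    (by
      rintro (a | a)
      · show (blk n k (J.orderEmbOfFin h2 a)).card = (blk n k a.val).card
        rw [blk_card (mem_range.1 (h1 (hJm a))) hq,
          blk_card (show a.val < q by have := a.isLt; omega) hq]
      · show (blk n k (P.orderEmbOfFin g2 a)).card = (blk n k (j + a.val)).card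
        rw [blk_card (hPr _ (hPm a)) hq,
          blk_card (show j + a.val < q by have := a.isLt; omega) hq])
    (fun v => (∀ a, v (Sum.inl a) ≤ 0) ∧ ∀ a, 0 < v (Sum.inr a))
  have e1 : (fun s : Equiv.Perm (Fin n) => (∀ c ∈ J, sm x (blk n k c) s ≤ 0) ∧
        ∀ c ∈ P, 0 < sm x (blk n k c) s) =
      (fun s => (∀ a : Fin j, sm x (blk n k (J.orderEmbOfFin h2 a)) s ≤ 0) ∧
        ∀ a : Fin 2, 0 < sm x (blk n k (P.orderEmbOfFin g2 a)) s) := by
    funext s
    apply propext
    constructor
    · rintro ⟨h, h'⟩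
      exact ⟨fun a => h _ (hJm a), fun a => h' _ (hPm a)⟩
    · rintro ⟨h, h'⟩
      refine ⟨fun c hc => ?_, fun c hc => ?_⟩
      · have : c ∈ Set.range (J.orderEmbOfFin h2) := by
          rw [range_orderEmbOfFin]; exact hc
        obtain ⟨a, rfl⟩ := this
        exact h a
      · have : c ∈ Set.range (P.orderEmbOfFin g2) := by
          rw [range_orderEmbOfFin]; exact hc
        obtain ⟨a, rfl⟩ := this
        exact h' a
  have e2 : (fun s : Equiv.Perm (Fin n) => Neg x k j s ∧ 0 < sm x (blk n k j) s ∧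
        0 < sm x (blk n k (j + 1)) s) =
      (fun s => (∀ a : Fin j, sm x (blk n k a.val) s ≤ 0) ∧
        ∀ a : Fin 2, 0 < sm x (blk n k (j + a.val)) s) := by
    funext s
    apply propext
    constructor
    · rintro ⟨h, h', h''⟩
      refine ⟨fun a => h _ a.isLt, fun a => ?_⟩
      fin_cases a
      · exact h'
      · exact h''
    · rintro ⟨h, h'⟩
      exact ⟨fun c hc => h ⟨c, hc⟩, h' 0, h' 1⟩
  rw [qq, e1, e2]
  exact key

/-- exchange of the order of summation -/
theorem exch {n : ℕ} {α : Type} [DecidableEq α] (S : Finset α)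
    (A : α → Equiv.Perm (Fin n) → Prop) (T : Equiv.Perm (Fin n) → Finset α)
    (h : ∀ s a, a ∈ T s ↔ a ∈ S ∧ A a s) :
    ∑ a ∈ S, cnt (A a) = ∑ s : Equiv.Perm (Fin n), ((T s).card : ℝ) := by
  classical
  have h1 : ∑ a ∈ S, cnt (A a) =
      ∑ a ∈ S, ∑ s : Equiv.Perm (Fin n), (if A a s then (1 : ℝ) else 0) := by
    refine sum_congr rfl (fun a _ => ?_)
    rw [cnt, card_filter]
    push_cast
    rfl
  rw [h1, sum_comm]
  refine sum_congr rfl (fun s _ => ?_)
  have h2 : T s = S.filter (fun a => A a s) := by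
    ext a
    rw [h, mem_filter]
  rw [h2, card_filter]
  push_cast
  rfl

end CNT

open CNT

set_option maxHeartbeats 4000000 in
theorem stmt_CNT (hE : Stmt_EXC) : Stmt_CNT := by
  classical
  intro n k j x hk hq
  set q := j + 4 with hqd
  have hmem : ∀ (s : Equiv.Perm (Fin n)) (J : Finset ℕ), J ∈ powersetCard j (neg x k q s) ↔
      J ∈ powersetCard j (range q) ∧ ∀ c ∈ J, sm x (blk n k c) s ≤ 0 := by
    intro s J
    simp only [mem_powersetCard, neg]
    constructor
    · rintro ⟨a, b⟩
      exact ⟨⟨fun i hi => (mem_filter.1 (a hi)).1, b⟩, fun i hi => (mem_filter.1 (a hi)).2⟩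
    · rintro ⟨⟨a, b⟩, c⟩
      exact ⟨fun i hi => mem_filter.2 ⟨a hi, c i hi⟩, b⟩
  refine ⟨?_, ?_, ?_⟩
  · have h1 : ∑ J ∈ powersetCard j (range q),
        cnt (fun s : Equiv.Perm (Fin n) => ∀ c ∈ J, sm x (blk n k c) s ≤ 0) =
        (q.choose j : ℝ) * hh x k j := by
      rw [sum_congr rfl (fun J hJ => law1 hE x (by omega) hq hJ), sum_const, card_powersetCard,
        card_range, nsmul_eq_mul]
    rw [← h1, exch (powersetCard j (range q))
      (fun J s => ∀ c ∈ J, sm x (blk n k c) s ≤ 0) (fun s => powersetCard j (neg x k q s)) hmem]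
    refine sum_congr rfl (fun s _ => ?_)
    rw [card_powersetCard, neg_card]
  · set S : Finset ((_ : Finset ℕ) × Finset ℕ) :=
      (powersetCard j (range q)).sigma (fun J => powersetCard 2 (range q \ J)) with hS
    have h1 : ∑ z ∈ S,
        cnt (fun s : Equiv.Perm (Fin n) => (∀ c ∈ z.1, sm x (blk n k c) s ≤ 0) ∧
          ∀ c ∈ z.2, 0 < sm x (blk n k c) s) =
        6 * (q.choose j : ℝ) * qq x k j := by
      have e : ∀ z ∈ S, cnt (fun s : Equiv.Perm (Fin n) => (∀ c ∈ z.1, sm x (blk n k c) s ≤ 0) ∧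
          ∀ c ∈ z.2, 0 < sm x (blk n k c) s) = qq x k j := by
        intro z hz
        obtain ⟨a, b⟩ := mem_sigma.1 hz
        exact law2 hE x (by omega) hq a b
      have hc : S.card = q.choose j * 6 := by
        rw [hS, card_sigma]
        have e2 : ∀ J ∈ powersetCard j (range q), (powersetCard 2 (range q \ J)).card = 6 := by
          intro J hJ
          obtain ⟨a, b⟩ := mem_powersetCard.1 hJ
          have : (range q \ J).card = 4 := by
            rw [card_sdiff_of_subset a, card_range, b]; omega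
          rw [card_powersetCard, this]
          rfl
        rw [sum_congr rfl e2, sum_const, card_powersetCard, card_range, smul_eq_mul]
      rw [sum_congr rfl e, sum_const, nsmul_eq_mul, hc]
      push_cast
      ring
    rw [← h1, exch S
      (fun z s => (∀ c ∈ z.1, sm x (blk n k c) s ≤ 0) ∧ ∀ c ∈ z.2, 0 < sm x (blk n k c) s)
      (fun s => (powersetCard j (neg x k q s)).sigma (fun _ => powersetCard 2 (ps x k q s)))]
    · refine sum_congr rfl (fun s _ => ?_)
      rw [card_sigma, sum_const, card_powersetCard, card_powersetCard, neg_card, ps_card,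
        smul_eq_mul]
      push_cast
      rfl
    · intro s z
      rw [mem_sigma, hmem, hS, mem_sigma]
      constructor
      · rintro ⟨⟨a1, a2⟩, b⟩
        obtain ⟨b1, b2⟩ := mem_powersetCard.1 b
        have b3 : ∀ c ∈ z.2, c ∈ range q ∧ 0 < sm x (blk n k c) s :=
          fun c hc => mem_filter.1 (b1 hc)
        refine ⟨⟨a1, mem_powersetCard.2 ⟨fun c hc => mem_sdiff.2 ⟨(b3 c hc).1, fun hcJ => ?_⟩,
          b2⟩⟩, a2, fun c hc => (b3 c hc).2⟩
        have u1 := (b3 c hc).2
        have u2 := a2 c hcJ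
        linarith
      · rintro ⟨⟨a1, b⟩, a2, a3⟩
        obtain ⟨b1, b2⟩ := mem_powersetCard.1 b
        exact ⟨⟨a1, a2⟩, mem_powersetCard.2 ⟨fun c hc =>
          mem_filter.2 ⟨(mem_sdiff.1 (b1 hc)).1, a3 c hc⟩, b2⟩⟩
  · rw [hh]
    have : Neg x k q = (fun s => nn x k q s = 0) := by
      funext s
      apply propext
      rw [nn, card_eq_zero, filter_eq_empty_iff]
      constructor
      · intro h c hc
        exact not_lt.2 (h c (mem_range.1 hc))
      · intro h c hc
        exact not_lt.1 (h (mem_range.2 hc))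
    rw [this]

end Pool.MM15
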