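import Pool.Agent.Work.MP_9999b5_mm.Interface

set_option autoImplicit false

namespace Pool.MM15

open Finset

lemma FIN1.choose_mul (n k : ℕ) (hk : 1 ≤ k) (hn : 1 ≤ n) :
    n * (n - 1).choose (k - 1) = k * n.choose k := by
  obtain ⟨a, rfl⟩ : ∃ a, n = a + 1 := ⟨n - 1, by omega⟩
  obtain ⟨b, rfl⟩ : ∃ b, k = b + 1 := ⟨k - 1, by omega⟩
  simp only [Nat.add_sub_cancel]
  have := Nat.add_one_mul_choose_eq a b
  rw [this]; ring

theorem stmt_FIN1 : Stmt_LOC → Stmt_PAI → Stmt_CNT → Stmt_MEA → Stmt_NUM → Stmt_FIN1 := by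
  intro hLOC hPAI hCNT hMEA hNUM n k x hk hn hinj hsum
  have hk0 : 0 < k := by omega
  have hdiv : 15 ≤ n / k := by
    rw [Nat.le_div_iff_mul_le hk0]; omega
  obtain ⟨j, hj⟩ : ∃ j, n / k = j + 7 := ⟨n / k - 7, by omega⟩
  have hmod := Nat.div_add_mod n k
  have hlt := Nat.mod_lt n hk0
  set r := n % k with hr
  obtain ⟨t, ht⟩ : ∃ t, t = 3 * k + r := ⟨_, rfl⟩
  have hnt : n = (j + 4) * k + t := by
    rw [ht, ← hmod, hj]; ring
  have h3 : 3 * k ≤ t := by omega
  have h4 : t ≤ 4 * k := by omega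
  have h76 : 76 * k ≤ 5 * ((j + 4) * k + t) := by rw [← hnt]; exact hn
  have hqk : (j + 4) * k ≤ n := by omega
  obtain ⟨c1, c2, c3⟩ := hCNT n k j x (by omega) hqk
  have hM := hMEA n k (j + 4) x (by omega) hqk
  have hL := hLOC n k j t x (by omega) h3 h4 hnt hsum
  have hP := hPAI n k j t x hk h3 h4 hnt hinj
  have hnR : (n : ℝ) = ((j : ℝ) + 4) * k + t := by rw [hnt]; push_cast; ring
  have hkR : (2 : ℝ) ≤ k := by exact_mod_cast hk
  have htR : (3 : ℝ) * k ≤ t := by exact_mod_cast h3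
  have ht0 : (0 : ℝ) < t := by linarith
  have hm0 : (0 : ℝ) < 4 * (k : ℝ) + t := by linarith
  have hjR : (0 : ℝ) ≤ (j : ℝ) := Nat.cast_nonneg j
  have hn0 : (0 : ℝ) < n := by rw [hnR]; nlinarith
  set A : ℝ := ((j + 4).choose j : ℝ) with hA
  have hA0 : 0 < A := by
    rw [hA]; exact_mod_cast Nat.choose_pos (by omega)
  -- the function N
  set N : Equiv.Perm (Fin n) → ℕ := fun s => nn x k (j + 4) s with hN
  have hNle : ∀ s, N s ≤ j + 4 := by
    intro s
    simp only [hN, nn]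
    exact (Finset.card_filter_le _ _).trans (by simp)
  have hW : ((Finset.univ : Finset (Equiv.Perm (Fin n))).card : ℝ) = (n.factorial : ℝ) := by
    rw [Finset.card_univ, Fintype.card_perm, Fintype.card_fin]
  set lam : ℝ := (4 * (k : ℝ) + t) / (4 * (((j : ℝ) + 4) * k + t)) with hlam
  have hlam0 : 0 ≤ lam := by
    rw [hlam]; positivity
  have hsumN := Finset.sum_le_sum (s := (Finset.univ : Finset (Equiv.Perm (Fin n))))
    (fun s _ => hNUM k j t (N s) hk h3 h4 h76 (hNle s))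
  have e0 : ∑ s : Equiv.Perm (Fin n), (if N s = 0 then (1 : ℝ) else 0) = hh x k (j + 4) := by
    rw [c3, cnt, Finset.sum_boole]
    refine congrArg Nat.cast (congrArg Finset.card ?_)
    ext s
    simp only [Finset.mem_filter, hN]
  have e1 : ∑ s : Equiv.Perm (Fin n), (((j + 4 - N s).choose j : ℝ) / A) = hh x k j := by
    rw [← Finset.sum_div, c1]
    exact mul_div_cancel_left₀ _ hA0.ne'
  have e2 : ∑ s : Equiv.Perm (Fin n),
      (((j + 4 - N s).choose j : ℝ) * ((N s).choose 2 : ℝ) / (6 * A)) = qq x k j := by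
    rw [← Finset.sum_div, c2]
    exact mul_div_cancel_left₀ _ (by positivity)
  have hL' : hh x k (j + 4) ≤ (t : ℝ) / (4 * k + t) * hh x k j + 169 * (k : ℝ) / t * qq x k j := by
    have h1 : (t : ℝ) * (4 * k + t) * hh x k (j + 4) ≤
        (t : ℝ) * (4 * k + t) * ((t : ℝ) / (4 * k + t) * hh x k j
          + 169 * (k : ℝ) / t * qq x k j) := by
      have h2 : (t : ℝ) * (4 * k + t) * ((t : ℝ) / (4 * k + t) * hh x k j
          + 169 * (k : ℝ) / t * qq x k j)
          = (t : ℝ) ^ 2 * hh x k j + (k : ℝ) * (4 * k + t) * (169 * qq x k j) := by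
        field_simp
      rw [h2]
      have h3 : (k : ℝ) * (4 * k + t) * (4 * uu x k j t) ≤
          (k : ℝ) * (4 * k + t) * (169 * qq x k j) :=
        mul_le_mul_of_nonneg_left hP (by positivity)
      nlinarith [hL, h3]
    exact le_of_mul_le_mul_left h1 (by positivity)
  have key : (n.factorial : ℝ) * ((k : ℝ) / n) ≤ (∑ s : Equiv.Perm (Fin n), (N s : ℝ)) /
      ((j : ℝ) + 4) := by
    have hl : ∑ s : Equiv.Perm (Fin n), ((k : ℝ) / (((j : ℝ) + 4) * k + t) + lam *
      (-(if N s = 0 then (1 : ℝ) else 0) + ((t : ℝ) / (4 * k + t)) *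
          (((j + 4 - N s).choose j : ℝ) / A)
        + (169 * (k : ℝ) / t) *
          (((j + 4 - N s).choose j : ℝ) * ((N s).choose 2 : ℝ) / (6 * A))))
        = (n.factorial : ℝ) * ((k : ℝ) / n) + lam * (- hh x k (j + 4)
          + (t : ℝ) / (4 * k + t) * hh x k j + 169 * (k : ℝ) / t * qq x k j) := by
      rw [Finset.sum_add_distrib, ← Finset.mul_sum, Finset.sum_add_distrib,
        Finset.sum_add_distrib, Finset.sum_neg_distrib, ← Finset.mul_sum, ← Finset.mul_sum,
        e0, e1, e2, Finset.sum_const, nsmul_eq_mul, hW, hnR]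
    rw [hl, ← Finset.sum_div] at hsumN
    have : 0 ≤ lam * (- hh x k (j + 4)
          + (t : ℝ) / (4 * k + t) * hh x k j + 169 * (k : ℝ) / t * qq x k j) :=
      mul_nonneg hlam0 (by linarith)
    linarith
  have hC0 : (0 : ℝ) < (n.choose k : ℝ) := by
    have : k ≤ n := by
      have : k ≤ (j + 4) * k := Nat.le_mul_of_pos_left k (by omega)
      omega
    exact_mod_cast Nat.choose_pos this
  have hF0 : (0 : ℝ) < (n.factorial : ℝ) := by exact_mod_cast Nat.factorial_pos n
  have hfin : (k : ℝ) * (n.choose k : ℝ) ≤ (n : ℝ) * (pos x k : ℝ) := by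
    have h1 : (n.choose k : ℝ) * ((n.factorial : ℝ) * ((k : ℝ) / n)) ≤
        (n.choose k : ℝ) * ((∑ s : Equiv.Perm (Fin n), (N s : ℝ)) / ((j : ℝ) + 4)) :=
      mul_le_mul_of_nonneg_left key hC0.le
    have h2 : (n.choose k : ℝ) * ((∑ s : Equiv.Perm (Fin n), (N s : ℝ)) / ((j : ℝ) + 4))
        = (n.factorial : ℝ) * (pos x k : ℝ) := by
      rw [← mul_div_assoc, hM]
      push_cast
      field_simp
    rw [h2] at h1
    have h3 : (n.choose k : ℝ) * ((n.factorial : ℝ) * ((k : ℝ) / n))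
        = (n.factorial : ℝ) * ((k : ℝ) * (n.choose k : ℝ) / n) := by ring
    rw [h3] at h1
    have h4 := le_of_mul_le_mul_left h1 hF0
    rw [div_le_iff₀ hn0] at h4
    linarith
  have hnat : k * n.choose k ≤ n * pos x k := by exact_mod_cast hfin
  have hn1 : 1 ≤ n := by
    have : (0 : ℝ) < n := hn0
    exact_mod_cast this
  rw [← FIN1.choose_mul n k (by omega) hn1] at hnat
  exact Nat.le_of_mul_le_mul_left hnat (by omega)

end Pool.MM15
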