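import Pool.Agent.Work.MP_9999b5_mm.Interface
import Pool.Agent.Work.MP_9999b5_ms_helper84.Top
import Pool.Agent.Work.MP_9999b5_ms_helper84.Transfer4

set_option autoImplicit false

namespace Pool.MM15

open Finset Pool.Agent.Work.MaxSums

theorem FIN2.set_form (h : Stmt_FIN1) (n k : ℕ) (hk : 2 ≤ k) (hn : 76 * k ≤ 5 * n)
    (A : Finset ℝ) (hA : A.card = n) (hs : ∑ a ∈ A, a = 0) :
    (n - 1).choose (k - 1) ≤
      ((A.powersetCard k).filter (fun B => 0 < ∑ b ∈ B, -b)).card := by
  classical
  set e : Fin n ↪ ℝ := (A.orderEmbOfFin hA).toEmbedding with he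
  have hmap : Finset.univ.map e = A := by
    ext a
    simp only [he, Finset.mem_map, Finset.mem_univ, true_and]
    constructor
    · rintro ⟨i, rfl⟩
      exact A.orderEmbOfFin_mem hA i
    · intro ha
      have : a ∈ Set.range (A.orderEmbOfFin hA) := by
        rw [Finset.range_orderEmbOfFin]; exact ha
      exact this
  have hsum : 0 ≤ ∑ i, (fun i => - e i) i := by
    have h1 : ∑ i, e i = ∑ a ∈ A, a := by
      conv_rhs => rw [← hmap, Finset.sum_map]
    simp only [Finset.sum_neg_distrib, h1, hs, neg_zero, le_refl]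
  have hinj : Function.Injective (fun i => - e i) := fun a b hab => e.injective (neg_injective hab)
  refine (h n k (fun i => - e i) hk hn hinj hsum).trans ?_
  unfold pos
  refine Finset.card_le_card_of_injOn (fun B => B.map e) ?_ ?_
  · intro B hB
    have hB' := Finset.mem_filter.1 (Finset.mem_coe.1 hB)
    have hc := (Finset.mem_powersetCard.1 hB'.1).2
    refine Finset.mem_coe.2 (Finset.mem_filter.2 ⟨Finset.mem_powersetCard.2 ⟨?_, ?_⟩, ?_⟩)
    · rw [← hmap]
      exact Finset.map_subset_map.2 (Finset.subset_univ B)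
    · rw [Finset.card_map]; exact hc
    · rw [Finset.sum_map]; exact hB'.2
  · intro B _ C _ hBC
    exact Finset.map_injective e hBC

/-- Q1 and the Manickam-Miklos-Singhi bound for `n ≥ 15.2 k`. -/
theorem FIN2.final (h : Stmt_FIN1) (k n : ℕ) (hk : 0 < k) (hn : 76 * k ≤ 5 * n) :
    IsGreatest (values k n) ((n - 1).choose k) ∧ MMS k n := by
  have h1 : IsGreatest (values k n) ((n - 1).choose k) := by
    refine isGreatest_of k n hk (by omega) ?_
    intro A hA hs
    rcases Nat.lt_or_ge k 2 with h2 | h2
    · obtain rfl : k = 1 := by omega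
      exact one n (by omega) A hA hs
    · exact FIN2.set_form h n k h2 hn A hA hs
  exact ⟨h1, Transfer.MMS_of_greatest hk (by omega) h1⟩

end Pool.MM15
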