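import Pool.Agent.Work.MP_9999b5_mm.Interface

set_option autoImplicit false

namespace Pool.MM15

open Finset

theorem HYP.arith (k s t D2 D4 C S2 S4 M2 M4 : ℝ) (hk : 2 ≤ k) (hs : t = k + s)
    (h3 : 3 * k ≤ t) (h4 : t ≤ 4 * k) (hD2 : D2 = t * (t - 1))
    (hD4 : D4 = t * (t - 1) * (t - 2) * (t - 3)) (hC : 0 ≤ C) (hS4 : 0 ≤ S4)
    (hM2 : D2 * M2 = C * k * s * S2)
    (hM4 : D4 * M4 = C * k * s * ((t * (t + 1) - 6 * k * s) * S4
      + 3 * (k - 1) * (s - 1) * S2 ^ 2)) : C * M4 ≤ 3 * M2 ^ 2 := by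
  have ht6 : 6 ≤ t := by linarith
  have hs2 : 4 ≤ s := by linarith
  have hneg : t * (t + 1) - 6 * k * s ≤ 0 := by
    have hs' : s = t - k := by linarith
    rw [hs']
    nlinarith [mul_nonneg (sub_nonneg.2 h3) (sub_nonneg.2 h4), mul_nonneg (sub_nonneg.2 h4)
      (by linarith : (0 : ℝ) ≤ k), mul_nonneg (sub_nonneg.2 hk) (by linarith : (0 : ℝ) ≤ k)]
  have hks : k * s * (4 * t - 6) ≤ t * (t - 1) ^ 2 := by
    have hs' : s = t - k := by linarith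
    have h9 : 9 * (k * s) ≤ 2 * t ^ 2 := by
      rw [hs']
      nlinarith [mul_nonneg (sub_nonneg.2 h3) (by linarith : (0 : ℝ) ≤ 2 * t - 3 * k)]
    have h10 : 9 * (k * s) * (4 * t - 6) ≤ 2 * t ^ 2 * (4 * t - 6) :=
      mul_le_mul_of_nonneg_right h9 (by linarith)
    nlinarith [mul_nonneg (by linarith : (0 : ℝ) ≤ t) (sq_nonneg (t - 3))]
  have hcomp : (k - 1) * (s - 1) * (t * (t - 1)) ≤ k * s * ((t - 2) * (t - 3)) := by
    have : (k - 1) * (s - 1) = k * s - t + 1 := by rw [hs]; ring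
    rw [this]
    nlinarith
  have hD2p : 0 < D2 := by rw [hD2]; exact mul_pos (by linarith) (by linarith)
  have hD4p : 0 < D4 := by
    rw [hD4]; exact mul_pos (mul_pos (mul_pos (by linarith) (by linarith)) (by linarith))
      (by linarith)
  have hks0 : 0 ≤ C * k * s := mul_nonneg (mul_nonneg hC (by linarith)) (by linarith)
  have h1 : D4 * M4 ≤ C * k * s * (3 * (k - 1) * (s - 1) * S2 ^ 2) := by
    rw [hM4]
    apply mul_le_mul_of_nonneg_left _ hks0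
    nlinarith [mul_nonneg (neg_nonneg.2 hneg) hS4]
  have h2 : C * (D4 * M4) * D2 ^ 2 ≤ 3 * (D2 * M2) ^ 2 * D4 := by
    rw [hM2]
    calc C * (D4 * M4) * D2 ^ 2
        ≤ C * (C * k * s * (3 * (k - 1) * (s - 1) * S2 ^ 2)) * D2 ^ 2 :=
          mul_le_mul_of_nonneg_right (mul_le_mul_of_nonneg_left h1 hC) (sq_nonneg _)
      _ = (3 * C ^ 2 * (k * s) * S2 ^ 2 * D2) * ((k - 1) * (s - 1) * (t * (t - 1))) := by
          rw [hD2]; ring
      _ ≤ (3 * C ^ 2 * (k * s) * S2 ^ 2 * D2) * (k * s * ((t - 2) * (t - 3))) := by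
          apply mul_le_mul_of_nonneg_left hcomp
          have : 0 ≤ k * s := mul_nonneg (by linarith) (by linarith)
          positivity
      _ = 3 * (C * k * s * S2) ^ 2 * D4 := by
          rw [hD2, hD4]; ring
  have h3' : (D4 * D2 ^ 2) * (C * M4) ≤ (D4 * D2 ^ 2) * (3 * M2 ^ 2) := by
    calc (D4 * D2 ^ 2) * (C * M4) = C * (D4 * M4) * D2 ^ 2 := by ring
      _ ≤ 3 * (D2 * M2) ^ 2 * D4 := h2
      _ = (D4 * D2 ^ 2) * (3 * M2 ^ 2) := by ring
  exact le_of_mul_le_mul_left h3' (mul_pos hD4p (pow_pos hD2p 2))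

theorem stmt_HYP : Stmt_MOM → Stmt_HYP := by
  intro hMOM α _ K y k hk h3 h4 h0
  obtain ⟨hM2, hM4⟩ := hMOM α K y k hk (by omega) (by omega) h0
  have hk' : (2 : ℝ) ≤ (k : ℝ) := by exact_mod_cast hk
  have h3' : 3 * (k : ℝ) ≤ (K.card : ℝ) := by exact_mod_cast h3
  have h4' : (K.card : ℝ) ≤ 4 * (k : ℝ) := by exact_mod_cast h4
  refine HYP.arith (k : ℝ) ((K.card : ℝ) - k) (K.card : ℝ) _ _ (K.card.choose k : ℝ)
    (∑ a ∈ K, y a ^ 2) (∑ a ∈ K, y a ^ 4) _ _ hk' (by ring) h3' h4' rfl rfl (by positivity)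
    (Finset.sum_nonneg (fun a _ => by positivity)) hM2 ?_
  rw [hM4]

end Pool.MM15
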