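import Pool.Agent.Work.MP_9999b5_mm.Interface

set_option autoImplicit false

namespace Pool.MM15

open Finset

namespace HZZ

lemma pt (b y : ℝ) (hb : 0 < b) :
    2 * b ^ 3 * y + 3 * b ^ 2 * y ^ 2 - y ^ 4 ≤ if 0 < y then 39 / 8 * b ^ 4 else 0 := by
  obtain ⟨z, rfl⟩ : ∃ z, y = b * z := ⟨y / b, by field_simp⟩
  have e : 2 * b ^ 3 * (b * z) + 3 * b ^ 2 * (b * z) ^ 2 - (b * z) ^ 4 =
      b ^ 4 * (2 * z + 3 * z ^ 2 - z ^ 4) := by ring
  rw [e]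
  have hb4 : 0 < b ^ 4 := by positivity
  split_ifs with h
  · have : 2 * z + 3 * z ^ 2 - z ^ 4 ≤ 39 / 8 := by
      nlinarith [sq_nonneg (z ^ 2 - 28 / 15), sq_nonneg (z - 15 / 11)]
    nlinarith
  · have hz : z ≤ 0 := by
      by_contra hz
      exact h (mul_pos hb (not_le.1 hz))
    have : 2 * z + 3 * z ^ 2 - z ^ 4 ≤ 0 := by
      have e2 : 2 * z + 3 * z ^ 2 - z ^ 4 = - ((-z) * (z + 1) ^ 2 * (2 - z)) := by ring
      rw [e2]
      have : 0 ≤ (-z) * (z + 1) ^ 2 * (2 - z) :=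
        mul_nonneg (mul_nonneg (by linarith) (sq_nonneg _)) (by linarith)
      linarith
    nlinarith

end HZZ

theorem stmt_HZZ : Stmt_HZZ := by
  intro α s Y hY
  obtain ⟨M2, hM2⟩ : ∃ M2 : ℝ, M2 = ∑ a ∈ s, Y a ^ 2 := ⟨_, rfl⟩
  obtain ⟨M4, hM4⟩ : ∃ M4 : ℝ, M4 = ∑ a ∈ s, Y a ^ 4 := ⟨_, rfl⟩
  obtain ⟨N, hN⟩ : ∃ N : ℝ, N = ((s.filter (fun a => 0 < Y a)).card : ℝ) := ⟨_, rfl⟩
  rw [← hM2, ← hM4, ← hN]
  have key : ∀ b : ℝ, 0 < b → 3 * b ^ 2 * M2 - M4 ≤ 39 / 8 * b ^ 4 * N := by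
    intro b hb
    have h1 := Finset.sum_le_sum fun a (_ : a ∈ s) => HZZ.pt b (Y a) hb
    rw [Finset.sum_sub_distrib, Finset.sum_add_distrib, ← Finset.mul_sum, ← Finset.mul_sum,
      hY, ← hM2, ← hM4, ← Finset.sum_filter, Finset.sum_const, nsmul_eq_mul, ← hN] at h1
    linarith
  have hM20 : 0 ≤ M2 := hM2 ▸ Finset.sum_nonneg fun a _ => sq_nonneg _
  have hM40 : 0 ≤ M4 := hM4 ▸ Finset.sum_nonneg fun a _ => by positivity
  have hN0 : 0 ≤ N := hN ▸ Nat.cast_nonneg _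
  rcases hM20.eq_or_lt with h0 | hpos
  · rw [← h0]
    have : 0 ≤ 13 * N * M4 := by positivity
    simpa using this
  -- M4 > 0
  have hM4pos : 0 < M4 := by
    rcases hM40.eq_or_lt with h | h
    · exfalso
      have hz : ∀ a ∈ s, Y a ^ 4 = 0 := by
        have := (Finset.sum_eq_zero_iff_of_nonneg (s := s) (f := fun a => Y a ^ 4)
          (fun a _ => by positivity)).1 (by rw [← hM4]; exact h.symm)
        exact this
      have : M2 = 0 := by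
        rw [hM2]
        refine Finset.sum_eq_zero fun a ha => ?_
        have := pow_eq_zero_iff (n := 4) (by norm_num) |>.1 (hz a ha)
        rw [this]; norm_num
      linarith
    · exact h
  have hq : 0 < 2 * M4 / (3 * M2) := by positivity
  have h1 := key (Real.sqrt (2 * M4 / (3 * M2))) (Real.sqrt_pos.2 hq)
  have e2 : Real.sqrt (2 * M4 / (3 * M2)) ^ 2 = 2 * M4 / (3 * M2) := Real.sq_sqrt hq.le
  have e4 : Real.sqrt (2 * M4 / (3 * M2)) ^ 4 = (2 * M4 / (3 * M2)) ^ 2 := by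
    have e5 : Real.sqrt (2 * M4 / (3 * M2)) ^ 4 = (Real.sqrt (2 * M4 / (3 * M2)) ^ 2) ^ 2 := by
      ring
    rw [e5, e2]
  rw [e2, e4] at h1
  have h2 : 3 * (2 * M4 / (3 * M2)) * M2 - M4 = M4 := by
    field_simp
    ring
  rw [h2] at h1
  have h3 : 39 / 8 * (2 * M4 / (3 * M2)) ^ 2 * N = (13 / 6 * M4 * N / M2 ^ 2) * M4 := by
    field_simp
    ring
  rw [h3] at h1
  have h4 : 1 ≤ 13 / 6 * M4 * N / M2 ^ 2 := by
    by_contra hc
    rw [not_le] at hc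
    nlinarith
  rw [le_div_iff₀ (by positivity)] at h4
  linarith

end Pool.MM15
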