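import Pool.Agent.Work.MP_9999b5_mm.Interface

set_option autoImplicit false

namespace Pool.MM15

open Finset

namespace KAT

set_option linter.unusedSectionVars false

variable {m : ℕ} [NeZero m]

theorem sum_univ_range (g : ZMod m → ℝ) : ∑ j : ZMod m, g j = ∑ r ∈ Finset.range m, g (r : ZMod m) := by
  symm
  refine Finset.sum_bij (fun r _ => (r : ZMod m)) (fun _ _ => Finset.mem_univ _) ?_ ?_ (fun _ _ => rfl)
  · intro a ha b hb hab
    rw [Finset.mem_range] at ha hb
    have h := congrArg ZMod.val hab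
    rwa [ZMod.val_cast_of_lt ha, ZMod.val_cast_of_lt hb] at h
  · intro b _
    exact ⟨b.val, Finset.mem_range.2 (ZMod.val_lt b), ZMod.natCast_zmod_val b⟩

/-- The indicator function. -/
noncomputable def f (S : Finset (ZMod m)) (i : ZMod m) : ℝ := if i ∈ S then 1 else 0

theorem f_nonneg (S : Finset (ZMod m)) (i : ZMod m) : 0 ≤ f S i := by
  unfold f; split_ifs <;> norm_num

theorem f_le_one (S : Finset (ZMod m)) (i : ZMod m) : f S i ≤ 1 := by
  unfold f; split_ifs <;> norm_num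

theorem card_eq (S : Finset (ZMod m)) : (S.card : ℝ) = ∑ j : ZMod m, f S j := by
  unfold f
  rw [Finset.sum_ite_mem, Finset.univ_inter]
  simp

theorem card_shift (S : Finset (ZMod m)) (i : ZMod m) :
    (S.card : ℝ) = ∑ r ∈ Finset.range m, f S (i + (r : ZMod m)) := by
  rw [← sum_univ_range (fun j => f S (i + j)), card_eq]
  exact (Equiv.sum_comp (Equiv.addLeft i) (fun j => f S j)).symm

theorem card_split (S : Finset (ZMod m)) (t : ℕ) (ht : 1 ≤ t) (hm : 2 * t ≤ m) (i : ZMod m) :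
    (S.card : ℝ) = f S i + ∑ a ∈ Finset.Ico 1 t, (f S (i - (a : ZMod m)) + f S (i - (a : ZMod m) + (t : ZMod m)))
      + ∑ d ∈ Finset.Icc t (m - t), f S (i + (d : ZMod m)) := by
  have h1 : ∑ r ∈ Finset.Ico 1 t, f S (i + (r : ZMod m))
      = ∑ a ∈ Finset.Ico 1 t, f S (i - (a : ZMod m) + (t : ZMod m)) := by
    refine Finset.sum_bij' (fun r _ => t - r) (fun a _ => t - a) ?_ ?_ ?_ ?_ ?_
    · intro r hr; rw [Finset.mem_Ico] at hr ⊢; omega
    · intro r hr; rw [Finset.mem_Ico] at hr ⊢; omega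
    · intro r hr; rw [Finset.mem_Ico] at hr; omega
    · intro r hr; rw [Finset.mem_Ico] at hr; omega
    · intro r hr
      rw [Finset.mem_Ico] at hr
      have : ((t - r : ℕ) : ZMod m) = (t : ZMod m) - (r : ZMod m) := Nat.cast_sub (by omega)
      rw [this]
      congr 1
      ring
  have h2 : ∑ r ∈ Finset.Ico (m - t + 1) m, f S (i + (r : ZMod m))
      = ∑ a ∈ Finset.Ico 1 t, f S (i - (a : ZMod m)) := by
    refine Finset.sum_bij' (fun r _ => m - r) (fun a _ => m - a) ?_ ?_ ?_ ?_ ?_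
    · intro r hr; rw [Finset.mem_Ico] at hr ⊢; omega
    · intro r hr; rw [Finset.mem_Ico] at hr ⊢; omega
    · intro r hr; rw [Finset.mem_Ico] at hr; omega
    · intro r hr; rw [Finset.mem_Ico] at hr; omega
    · intro r hr
      rw [Finset.mem_Ico] at hr
      have : ((m - r : ℕ) : ZMod m) = (m : ZMod m) - (r : ZMod m) := Nat.cast_sub (by omega)
      rw [this, ZMod.natCast_self]
      congr 1
      ring
  have h3 : ∑ r ∈ Finset.Ico t (m - t + 1), f S (i + (r : ZMod m))
      = ∑ d ∈ Finset.Icc t (m - t), f S (i + (d : ZMod m)) := by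
    refine Finset.sum_congr ?_ (fun _ _ => rfl)
    ext d
    rw [Finset.mem_Ico, Finset.mem_Icc]
    omega
  have h0 : ∑ r ∈ Finset.Ico (0 : ℕ) 1, f S (i + (r : ZMod m)) = f S i := by
    simp
  rw [card_shift S i, Finset.range_eq_Ico,
    ← Finset.sum_Ico_consecutive _ (Nat.zero_le 1) (by omega : 1 ≤ m),
    ← Finset.sum_Ico_consecutive _ ht (by omega : t ≤ m),
    ← Finset.sum_Ico_consecutive _ (by omega : t ≤ m - t + 1) (by omega : m - t + 1 ≤ m),
    h0, h1, h2, h3, Finset.sum_add_distrib]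
  ring

theorem cf_eq (S : Finset (ZMod m)) (d : ZMod m) :
    ((S.filter (fun i => i + d ∈ S)).card : ℝ) = ∑ i ∈ S, f S (i + d) := by
  rw [Finset.card_filter]
  push_cast
  rfl

theorem sum_prod_le (S : Finset (ZMod m)) (a d : ZMod m) :
    ∑ i ∈ S, f S (i - a) * f S (i - a + d) ≤ ∑ i ∈ S, f S (i + d) := by
  have h1 : ∑ i ∈ S, f S (i - a) * f S (i - a + d) ≤ ∑ i : ZMod m, f S (i - a) * f S (i - a + d) :=
    Finset.sum_le_univ_sum_of_nonneg (fun i => mul_nonneg (f_nonneg S _) (f_nonneg S _))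
  have h2 : ∑ i : ZMod m, f S (i - a) * f S (i - a + d) = ∑ i : ZMod m, f S i * f S (i + d) :=
    Equiv.sum_comp (Equiv.subRight a) (fun i => f S i * f S (i + d))
  have h3 : ∑ i : ZMod m, f S i * f S (i + d) = ∑ i ∈ S, f S (i + d) := by
    have : ∀ i : ZMod m, f S i * f S (i + d) = if i ∈ S then f S (i + d) else 0 := by
      intro i
      unfold f
      split_ifs <;> simp
    rw [Finset.sum_congr rfl (fun i _ => this i), Finset.sum_ite_mem, Finset.univ_inter]
  rw [← h3, ← h2]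
  exact h1

end KAT

open KAT in
theorem stmt_KAT : Stmt_KAT := by
  intro m t _ ht hm S
  set Y : ℝ := ((t : ℝ) - 1) * ((S.filter (fun i => i + (t : ZMod m) ∈ S)).card : ℝ)
    + ∑ d ∈ Finset.Icc t (m - t), ((S.filter (fun i => i + (d : ZMod m) ∈ S)).card : ℝ) with hY
  have ht1 : (1 : ℝ) ≤ (t : ℝ) := by exact_mod_cast ht
  have hY0 : 0 ≤ Y := by
    rw [hY]
    refine add_nonneg (mul_nonneg (by linarith) (Nat.cast_nonneg _)) ?_
    exact Finset.sum_nonneg (fun _ _ => Nat.cast_nonneg _)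
  have hmain : (S.card : ℝ) * S.card ≤ (t : ℝ) * S.card + Y := by
    have h1 : ∀ i ∈ S, (S.card : ℝ) ≤ (t : ℝ) + ∑ a ∈ Finset.Ico 1 t,
        f S (i - (a : ZMod m)) * f S (i - (a : ZMod m) + (t : ZMod m))
        + ∑ d ∈ Finset.Icc t (m - t), f S (i + (d : ZMod m)) := by
      intro i hi
      have hfi : f S i = 1 := by unfold f; rw [if_pos hi]
      have h2 : ∑ a ∈ Finset.Ico 1 t, (f S (i - (a : ZMod m)) + f S (i - (a : ZMod m) + (t : ZMod m)))
          ≤ ∑ a ∈ Finset.Ico 1 t, (1 + f S (i - (a : ZMod m)) * f S (i - (a : ZMod m) + (t : ZMod m))) := by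
        refine Finset.sum_le_sum (fun a _ => ?_)
        nlinarith [f_le_one S (i - (a : ZMod m)), f_le_one S (i - (a : ZMod m) + (t : ZMod m))]
      have h3 : ∑ a ∈ Finset.Ico 1 t, (1 + f S (i - (a : ZMod m)) * f S (i - (a : ZMod m) + (t : ZMod m)))
          = ((t : ℝ) - 1) + ∑ a ∈ Finset.Ico 1 t,
            f S (i - (a : ZMod m)) * f S (i - (a : ZMod m) + (t : ZMod m)) := by
        rw [Finset.sum_add_distrib]
        congr 1
        simp only [Finset.sum_const, Nat.card_Ico, nsmul_eq_mul, mul_one]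
        rw [Nat.cast_sub ht]
        norm_num
      rw [card_split S t ht hm i, hfi]
      rw [h3] at h2
      linarith
    have h4 : (S.card : ℝ) * S.card ≤ ∑ i ∈ S, ((t : ℝ) + ∑ a ∈ Finset.Ico 1 t,
        f S (i - (a : ZMod m)) * f S (i - (a : ZMod m) + (t : ZMod m))
        + ∑ d ∈ Finset.Icc t (m - t), f S (i + (d : ZMod m))) := by
      have := Finset.sum_le_sum h1
      rw [Finset.sum_const, nsmul_eq_mul] at this
      exact this
    have h5 : ∑ i ∈ S, ((t : ℝ) + ∑ a ∈ Finset.Ico 1 t,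
        f S (i - (a : ZMod m)) * f S (i - (a : ZMod m) + (t : ZMod m))
        + ∑ d ∈ Finset.Icc t (m - t), f S (i + (d : ZMod m)))
        = (t : ℝ) * S.card + ∑ a ∈ Finset.Ico 1 t, ∑ i ∈ S,
          f S (i - (a : ZMod m)) * f S (i - (a : ZMod m) + (t : ZMod m))
          + ∑ d ∈ Finset.Icc t (m - t), ∑ i ∈ S, f S (i + (d : ZMod m)) := by
      rw [Finset.sum_add_distrib, Finset.sum_add_distrib, Finset.sum_const, nsmul_eq_mul,
        Finset.sum_comm, mul_comm]
      congr 1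
      exact Finset.sum_comm
    have h6 : ∑ a ∈ Finset.Ico 1 t, ∑ i ∈ S,
          f S (i - (a : ZMod m)) * f S (i - (a : ZMod m) + (t : ZMod m))
        ≤ ((t : ℝ) - 1) * ((S.filter (fun i => i + (t : ZMod m) ∈ S)).card : ℝ) := by
      have := Finset.sum_le_sum (s := Finset.Ico 1 t)
        (fun a _ => sum_prod_le S (a : ZMod m) (t : ZMod m))
      refine le_trans this ?_
      rw [Finset.sum_const, nsmul_eq_mul, Nat.card_Ico, cf_eq, Nat.cast_sub ht]
      norm_num
    have h7 : ∑ d ∈ Finset.Icc t (m - t), ∑ i ∈ S, f S (i + (d : ZMod m))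
        = ∑ d ∈ Finset.Icc t (m - t), ((S.filter (fun i => i + (d : ZMod m) ∈ S)).card : ℝ) :=
      Finset.sum_congr rfl (fun d _ => (cf_eq S (d : ZMod m)).symm)
    rw [h5, h7] at h4
    rw [hY]
    linarith
  have hgoal : (t : ℝ) * S.card ≤ (t : ℝ) ^ 2 + Y := by
    rcases le_total (t : ℝ) (S.card : ℝ) with h | h
    · nlinarith
    · nlinarith
  rw [hY] at hgoal
  linarith

end Pool.MM15
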