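import Pool.Agent.Work.MP_9999b5_mm.Interface

set_option autoImplicit false

/-!
Block LOC of MP_9999b5: the local inequality (see BLUEPRINT.md).
-/

namespace Pool.MM15.LOC

open Finset

lemma mem_iv {n a b : ℕ} (p : Fin n) : p ∈ iv n a b ↔ a ≤ p.val ∧ p.val < b := by
  simp [iv]

lemma iv_card {n a b : ℕ} (hb : b ≤ n) : (iv n a b).card = b - a := by
  have h : (iv n a b).map Fin.valEmbedding = Finset.Ico a b := by
    ext y
    simp only [Finset.mem_map, mem_iv, Fin.valEmbedding_apply, Finset.mem_Ico]
    constructor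
    · rintro ⟨p, hp, rfl⟩
      exact hp
    · intro hy
      exact ⟨⟨y, by omega⟩, hy, rfl⟩
  rw [← Finset.card_map Fin.valEmbedding, h, Nat.card_Ico]

lemma iv_disj {n a b c d : ℕ} (h : b ≤ c) : Disjoint (iv n a b) (iv n c d) := by
  rw [Finset.disjoint_left]
  intro p h1 h2
  rw [mem_iv] at h1 h2
  omega

lemma blk_disj {n k c d : ℕ} (h : c ≠ d) : Disjoint (blk n k c) (blk n k d) := by
  rcases lt_or_gt_of_ne h with h | h
  · exact iv_disj (Nat.mul_le_mul_right k h)
  · exact (iv_disj (Nat.mul_le_mul_right k h)).symm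

lemma blk_card {n k c : ℕ} (h : (c + 1) * k ≤ n) : (blk n k c).card = k := by
  rw [blk, iv_card h, Nat.add_mul]
  omega

lemma sum_iv_append {n a b c : ℕ} (hab : a ≤ b) (hbc : b ≤ c) (f : Fin n → ℝ) :
    ∑ p ∈ iv n a c, f p = ∑ p ∈ iv n a b, f p + ∑ p ∈ iv n b c, f p := by
  rw [← Finset.sum_union (iv_disj le_rfl)]
  apply Finset.sum_congr _ (fun _ _ => rfl)
  ext p
  simp only [Finset.mem_union, mem_iv]
  omega

lemma sum_blocks {n k : ℕ} (f : Fin n → ℝ) (j : ℕ) :
    ∑ p ∈ iv n 0 (j * k), f p = ∑ c ∈ range j, ∑ p ∈ blk n k c, f p := by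
  induction j with
  | zero => simp [iv]
  | succ j ih =>
    rw [Finset.sum_range_succ, ← ih, blk]
    exact sum_iv_append (Nat.zero_le _) (Nat.mul_le_mul_right k (Nat.le_succ j)) f

lemma sum_all {n : ℕ} (f : Fin n → ℝ) : ∑ p ∈ iv n 0 n, f p = ∑ p, f p := by
  apply Finset.sum_congr _ (fun _ _ => rfl)
  ext p
  simp [mem_iv]

/-- The index `i` of `Fin 4` placed. -/
lemma sm_total {n : ℕ} (x : Fin n → ℝ) (s : Equiv.Perm (Fin n)) :
    ∑ p, x (s p) = ∑ i, x i := Equiv.sum_comp s x

open Classical in
lemma cnt_eq_sum {n : ℕ} (P : Equiv.Perm (Fin n) → Prop) :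
    cnt P = ∑ s, if P s then (1 : ℝ) else 0 := by
  rw [cnt, Finset.card_filter]
  push_cast
  rfl

lemma cnt_mono {n : ℕ} {P Q : Equiv.Perm (Fin n) → Prop} (h : ∀ s, P s → Q s) :
    cnt P ≤ cnt Q := by
  classical
  unfold cnt
  apply Nat.cast_le.mpr
  apply Finset.card_le_card
  intro s hs
  simp only [Finset.mem_filter, Finset.mem_univ, true_and] at hs ⊢
  exact h s hs

lemma cnt_congr {n : ℕ} {P Q : Equiv.Perm (Fin n) → Prop} (h : ∀ s, P s ↔ Q s) :
    cnt P = cnt Q := le_antisymm (cnt_mono fun s => (h s).1) (cnt_mono fun s => (h s).2)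

/-- Exchange of sums: summing the sizes of the filtered sets. -/
lemma sum_card_filter {n m : ℕ} [NeZero m] (R : Equiv.Perm (Fin n) → ZMod m → Prop)
    [∀ s, DecidablePred (R s)] :
    ∑ s, ((Finset.univ.filter (R s)).card : ℝ) = ∑ a : ZMod m, cnt (fun s => R s a) := by
  simp only [cnt_eq_sum]
  rw [Finset.sum_comm]
  apply Finset.sum_congr rfl
  intro s _
  rw [Finset.card_filter]
  push_cast
  apply Finset.sum_congr rfl
  intro a _
  by_cases h : R s a <;> simp [h]

lemma cnt_eq_sum' {n : ℕ} (P : Equiv.Perm (Fin n) → Prop) [DecidablePred P] :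
    cnt P = ∑ s, if P s then (1 : ℝ) else 0 := by
  rw [cnt_eq_sum]
  apply Finset.sum_congr rfl
  intro a _
  by_cases h : P a <;> simp [h]

end Pool.MM15.LOC

namespace Pool.MM15

open Finset LOC

theorem stmt_LOC : Stmt_EXC → Stmt_KAT → Stmt_ARC → Stmt_LOC := by
  classical
  intro hE hK hA n k j t x hk ht1 ht2 hn hx
  obtain ⟨b, hb⟩ : ∃ b, b = j * k := ⟨_, rfl⟩
  obtain ⟨m, hm⟩ : ∃ m, m = 4 * k + t := ⟨_, rfl⟩
  have hnb : n = b + m := by rw [hn, hb, hm]; ring
  have : NeZero m := ⟨by omega⟩
  obtain ⟨A1, A2, A3, A4, A5⟩ := hA n b m hnb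
  -- the four arcs
  let ar : ZMod m → ℕ → Finset (Fin n) := fun a i => arc n b m (a + ((t + i * k : ℕ) : ZMod m)) k
  let R : Equiv.Perm (Fin n) → ZMod m → Prop :=
    fun s a => Neg x k j s ∧ ∀ i : Fin 4, sm x (ar a i) s ≤ 0
  -- probability of one arc place
  have hone : ∀ a : ZMod m, cnt (fun s => R s a) = hh x k (j + 4) := by
    intro a
    have hex := hE n x (Fin j ⊕ Fin 4)
      (Sum.elim (fun c => blk n k c.val) (fun i => ar a i.val))
      (Sum.elim (fun c => blk n k c.val) (fun i => blk n k (j + i.val)))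
      (by
        rintro (c | i) (c' | i') hne
        · simp only [Sum.elim_inl]
          exact blk_disj (fun h => hne (by rw [Fin.ext h]))
        · simp only [Sum.elim_inl, Sum.elim_inr]
          refine (A3 _ _ _ _ ?_).symm
          rw [hb]
          exact Nat.mul_le_mul_right k c.isLt
        · simp only [Sum.elim_inl, Sum.elim_inr]
          refine A3 _ _ _ _ ?_
          rw [hb]
          exact Nat.mul_le_mul_right k c'.isLt
        · simp only [Sum.elim_inr]
          have hne' : i.val ≠ i'.val := fun h => hne (by rw [Fin.ext h])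
          have key : ∀ u v : ℕ, u < v → v < 4 → Disjoint (ar a u) (ar a v) := by
            intro u v huv hv
            apply A2
            · have := Nat.mul_le_mul_right k (Nat.succ_le_of_lt huv)
              rw [Nat.succ_mul] at this
              omega
            · have := Nat.mul_le_mul_right k (Nat.succ_le_of_lt hv)
              rw [Nat.succ_mul] at this
              omega
          rcases lt_or_gt_of_ne hne' with h | h
          · exact key _ _ h i'.isLt
          · exact (key _ _ h i.isLt).symm)
      (by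
        rintro (c | i) (c' | i') hne
        · simp only [Sum.elim_inl]
          exact blk_disj (fun h => hne (by rw [Fin.ext h]))
        · simp only [Sum.elim_inl, Sum.elim_inr]
          exact blk_disj (by have := c.isLt; omega)
        · simp only [Sum.elim_inl, Sum.elim_inr]
          exact blk_disj (by have := c'.isLt; omega)
        · simp only [Sum.elim_inr]
          refine blk_disj (fun h => hne ?_)
          rw [Fin.ext (show i.val = i'.val by omega)])
      (by
        rintro (c | i)
        · rfl
        · simp only [Sum.elim_inr]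
          rw [A1 _ _ (by omega), blk_card]
          have h4 : (j + i.val + 1) * k ≤ (j + 4) * k :=
            Nat.mul_le_mul_right k (by have := i.isLt; omega)
          omega)
      (fun f => (∀ c : Fin j, f (Sum.inl c) ≤ 0) ∧ ∀ i : Fin 4, f (Sum.inr i) ≤ 0)
    simp only [Sum.elim_inl, Sum.elim_inr] at hex
    rw [hh, cnt_congr (Q := fun s => (∀ c : Fin j, sm x (blk n k c.val) s ≤ 0) ∧
      ∀ i : Fin 4, sm x (ar a i.val) s ≤ 0), hex]
    · apply cnt_congr
      intro s
      constructor
      · rintro ⟨h1, h2⟩ c hc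
        rcases lt_or_ge c j with hcj | hcj
        · exact h1 ⟨c, hcj⟩
        · have := h2 ⟨c - j, by omega⟩
          rwa [show j + (⟨c - j, by omega⟩ : Fin 4).val = c from by simp; omega] at this
      · intro h
        exact ⟨fun c => h c.val (by have := c.isLt; omega),
          fun i => h (j + i.val) (by have := i.isLt; omega)⟩
    · intro s
      constructor
      · rintro ⟨h1, h2⟩
        exact ⟨fun c => h1 c.val c.isLt, h2⟩
      · rintro ⟨h1, h2⟩
        exact ⟨fun c hc => h1 ⟨c, hc⟩, h2⟩
  -- the complement of the four arcs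
  have hcomp : ∀ (s : Equiv.Perm (Fin n)) (a : ZMod m), R s a → 0 ≤ sm x (arc n b m a t) s := by
    intro s a ⟨hN, hR⟩
    have htot : ∑ p, x (s p) = ∑ c ∈ range j, ∑ p ∈ blk n k c, x (s p)
        + ∑ p ∈ arc n b m a m, x (s p) := by
      rw [A5, ← sum_all, sum_iv_append (Nat.zero_le b) (by omega) (fun p => x (s p)), hb,
        sum_blocks]
    have hneg : ∑ c ∈ range j, ∑ p ∈ blk n k c, x (s p) ≤ 0 :=
      Finset.sum_nonpos (fun c hc => hN c (Finset.mem_range.1 hc))
    have e1 := A4 a t (4 * k) (fun p => x (s p)) (by omega)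
    have e2 := A4 (a + (t : ZMod m)) k (3 * k) (fun p => x (s p)) (by omega)
    have e3 := A4 (a + (t : ZMod m) + (k : ZMod m)) k (2 * k) (fun p => x (s p)) (by omega)
    have e4 := A4 (a + (t : ZMod m) + (k : ZMod m) + (k : ZMod m)) k k (fun p => x (s p))
      (by omega)
    rw [show t + 4 * k = m by omega] at e1
    rw [show k + 3 * k = 4 * k by ring] at e2
    rw [show k + 2 * k = 3 * k by ring] at e3
    rw [show k + k = 2 * k by ring] at e4
    have r0 := hR 0
    have r1 := hR 1
    have r2 := hR 2
    have r3 := hR 3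
    have c0 : a + ((t + (0 : Fin 4).val * k : ℕ) : ZMod m) = a + (t : ZMod m) := by
      simp
    have c1 : a + ((t + (1 : Fin 4).val * k : ℕ) : ZMod m) = a + (t : ZMod m) + (k : ZMod m) := by
      have : (1 : Fin 4).val = 1 := rfl
      rw [this]; push_cast; ring
    have c2 : a + ((t + (2 : Fin 4).val * k : ℕ) : ZMod m)
        = a + (t : ZMod m) + (k : ZMod m) + (k : ZMod m) := by
      have : (2 : Fin 4).val = 2 := rfl
      rw [this]; push_cast; ring
    have c3 : a + ((t + (3 : Fin 4).val * k : ℕ) : ZMod m)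
        = a + (t : ZMod m) + (k : ZMod m) + (k : ZMod m) + (k : ZMod m) := by
      have : (3 : Fin 4).val = 3 := rfl
      rw [this]; push_cast; ring
    simp only [ar, sm] at r0 r1 r2 r3
    rw [c0] at r0
    rw [c1] at r1
    rw [c2] at r2
    rw [c3] at r3
    have htt := sm_total x s
    unfold sm
    linarith
  -- probability of two arc places
  have htwo : ∀ (a : ZMod m) (d : ℕ), t ≤ d → d + t ≤ m →
      cnt (fun s => R s a ∧ R s (a + (d : ZMod m))) ≤ uu x k j t := by
    intro a d hd1 hd2
    have hex := hE n x (Fin j ⊕ Fin 2)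
      (Sum.elim (fun c => blk n k c.val)
        (fun i => if i = 0 then arc n b m a t else arc n b m (a + (d : ZMod m)) t))
      (Sum.elim (fun c => blk n k c.val)
        (fun i => if i = 0 then iv n (j * k) (j * k + t) else iv n (j * k + t) (j * k + 2 * t)))
      (by
        have hd : Disjoint (arc n b m a t) (arc n b m (a + (d : ZMod m)) t) := by
          have := A2 a 0 d t t (by omega) hd2
          simpa using this
        rintro (c | i) (c' | i') hne
        · simp only [Sum.elim_inl]
          exact blk_disj (fun h => hne (by rw [Fin.ext h]))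
        · simp only [Sum.elim_inl, Sum.elim_inr]
          split_ifs
          · refine (A3 _ _ _ _ ?_).symm
            rw [hb]
            exact Nat.mul_le_mul_right k c.isLt
          · refine (A3 _ _ _ _ ?_).symm
            rw [hb]
            exact Nat.mul_le_mul_right k c.isLt
        · simp only [Sum.elim_inl, Sum.elim_inr]
          split_ifs
          · refine A3 _ _ _ _ ?_
            rw [hb]
            exact Nat.mul_le_mul_right k c'.isLt
          · refine A3 _ _ _ _ ?_
            rw [hb]
            exact Nat.mul_le_mul_right k c'.isLt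
        · simp only [Sum.elim_inr]
          fin_cases i <;> fin_cases i'
          · exact absurd rfl hne
          · simpa using hd
          · simpa using hd.symm
          · exact absurd rfl hne)
      (by
        have hd : Disjoint (iv n (j * k) (j * k + t)) (iv n (j * k + t) (j * k + 2 * t)) :=
          iv_disj le_rfl
        rintro (c | i) (c' | i') hne
        · simp only [Sum.elim_inl]
          exact blk_disj (fun h => hne (by rw [Fin.ext h]))
        · simp only [Sum.elim_inl, Sum.elim_inr]
          have h1 : (c.val + 1) * k ≤ j * k := Nat.mul_le_mul_right k c.isLt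
          split_ifs
          · exact iv_disj h1
          · exact iv_disj (by omega)
        · simp only [Sum.elim_inl, Sum.elim_inr]
          have h1 : (c'.val + 1) * k ≤ j * k := Nat.mul_le_mul_right k c'.isLt
          split_ifs
          · exact (iv_disj h1).symm
          · exact (iv_disj (by omega)).symm
        · simp only [Sum.elim_inr]
          fin_cases i <;> fin_cases i'
          · exact absurd rfl hne
          · simpa using hd
          · simpa using hd.symm
          · exact absurd rfl hne)
      (by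
        rintro (c | i)
        · rfl
        · simp only [Sum.elim_inr]
          split_ifs
          · rw [A1 _ _ (by omega), iv_card (by omega)]
            omega
          · rw [A1 _ _ (by omega), iv_card (by omega)]
            omega)
      (fun f => (∀ c : Fin j, f (Sum.inl c) ≤ 0) ∧ 0 ≤ f (Sum.inr 0) ∧ 0 ≤ f (Sum.inr 1))
    simp only [Sum.elim_inl, Sum.elim_inr, if_true, one_ne_zero, if_false] at hex
    refine le_trans (cnt_mono (Q := fun s => (∀ c : Fin j, sm x (blk n k c.val) s ≤ 0) ∧
      0 ≤ sm x (arc n b m a t) s ∧ 0 ≤ sm x (arc n b m (a + (d : ZMod m)) t) s) ?_) ?_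
    · rintro s ⟨h1, h2⟩
      exact ⟨fun c => h1.1 c.val c.isLt, hcomp s a h1, hcomp s _ h2⟩
    · rw [hex, uu]
      apply cnt_mono
      rintro s ⟨h1, h2, h3⟩
      exact ⟨fun c hc => h1 ⟨c, hc⟩, h2, h3⟩
  -- Katona for every arrangement
  have hkat : ∀ s : Equiv.Perm (Fin n),
      (t : ℝ) * ((Finset.univ.filter (fun a : ZMod m => R s a)).card : ℝ)
        ≤ (t : ℝ) ^ 2 * (if Neg x k j s then (1 : ℝ) else 0)
          + ((t : ℝ) - 1) * ((Finset.univ.filter (fun a : ZMod m =>
              R s a ∧ R s (a + (t : ZMod m)))).card : ℝ)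
          + ∑ d ∈ Finset.Icc t (m - t), ((Finset.univ.filter (fun a : ZMod m =>
              R s a ∧ R s (a + (d : ZMod m)))).card : ℝ) := by
    intro s
    by_cases hN : Neg x k j s
    · have h := hK m t (by omega) (by omega) (Finset.univ.filter (fun a : ZMod m => R s a))
      simp only [Finset.filter_filter, Finset.mem_filter, Finset.mem_univ, true_and] at h
      rw [if_pos hN, mul_one]
      exact h
    · have h0 : ∀ a, ¬ R s a := fun a h => hN h.1
      simp [h0, hN]
  have hsum := Finset.sum_le_sum (fun s (_ : s ∈ (Finset.univ : Finset (Equiv.Perm (Fin n)))) =>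
    hkat s)
  rw [← Finset.mul_sum, Finset.sum_add_distrib, Finset.sum_add_distrib, ← Finset.mul_sum,
    ← Finset.mul_sum, Finset.sum_comm (s := Finset.univ) (t := Finset.Icc t (m - t)),
    sum_card_filter R, sum_card_filter (fun s a => R s a ∧ R s (a + (t : ZMod m))),
    ← cnt_eq_sum'] at hsum
  have hL : ∑ a : ZMod m, cnt (fun s => R s a) = (m : ℝ) * hh x k (j + 4) := by
    rw [Finset.sum_congr rfl (fun a _ => hone a), Finset.sum_const, Finset.card_univ, ZMod.card,
      nsmul_eq_mul]
  have hM : ∀ d : ℕ, t ≤ d → d + t ≤ m →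
      ∑ a : ZMod m, cnt (fun s => R s a ∧ R s (a + (d : ZMod m))) ≤ (m : ℝ) * uu x k j t := by
    intro d h1 h2
    refine le_trans (Finset.sum_le_sum (fun a _ => htwo a d h1 h2)) ?_
    rw [Finset.sum_const, Finset.card_univ, ZMod.card, nsmul_eq_mul]
  have hD : ∑ d ∈ Finset.Icc t (m - t), ∑ s : Equiv.Perm (Fin n),
      ((Finset.univ.filter (fun a : ZMod m => R s a ∧ R s (a + (d : ZMod m)))).card : ℝ)
        ≤ ((m : ℝ) - 2 * t + 1) * ((m : ℝ) * uu x k j t) := by
    refine le_trans (Finset.sum_le_sum (g := fun _ => (m : ℝ) * uu x k j t)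
      (fun d hd => ?_)) ?_
    · rw [sum_card_filter (fun s a => R s a ∧ R s (a + (d : ZMod m)))]
      rw [Finset.mem_Icc] at hd
      exact hM d hd.1 (by omega)
    · rw [Finset.sum_const, Nat.card_Icc, nsmul_eq_mul]
      have : ((m - t + 1 - t : ℕ) : ℝ) = (m : ℝ) - 2 * t + 1 := by
        have h2 : m - t + 1 - t = m + 1 - 2 * t := by omega
        rw [h2, Nat.cast_sub (by omega)]
        push_cast
        ring
      rw [this]
  have hT := hM t le_rfl (by omega)
  rw [hL] at hsum
  have ht0 : (1 : ℝ) ≤ t := by exact_mod_cast (by omega : 1 ≤ t)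
  have hmr : (m : ℝ) = 4 * k + t := by rw [hm]; push_cast; ring
  have hT' := mul_le_mul_of_nonneg_left hT (sub_nonneg.2 ht0)
  have hfin : (t : ℝ) * ((m : ℝ) * hh x k (j + 4)) ≤ (t : ℝ) ^ 2 * cnt (Neg x k j)
      + ((t : ℝ) - 1) * ((m : ℝ) * uu x k j t)
      + ((m : ℝ) - 2 * t + 1) * ((m : ℝ) * uu x k j t) := by
    linarith
  rw [hmr] at hfin
  have hhj : cnt (Neg x k j) = hh x k j := rfl
  rw [hhj] at hfin
  nlinarith [hfin]

end Pool.MM15
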