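import Pool.Agent.Work.MP_9999b5_mm.Interface

set_option autoImplicit false

namespace Pool.MM15

open Finset

namespace MEA

lemma card_iv (n a b : ℕ) (hb : b ≤ n) : (iv n a b).card = b - a := by
  have h : (iv n a b).map Fin.valEmbedding = Finset.Ico a b := by
    ext i
    simp only [iv, Finset.mem_map, Finset.mem_filter, Finset.mem_univ, true_and,
      Fin.valEmbedding_apply, Finset.mem_Ico]
    constructor
    · rintro ⟨p, hp, rfl⟩
      exact hp
    · intro hi
      exact ⟨⟨i, by omega⟩, hi, rfl⟩
  rw [← Finset.card_map Fin.valEmbedding, h, Nat.card_Ico]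

lemma card_blk (n k q c : ℕ) (hq : q * k ≤ n) (hc : c < q) : (blk n k c).card = k := by
  have h1 : (c + 1) * k ≤ n := (Nat.mul_le_mul_right k hc).trans hq
  unfold blk
  rw [card_iv n _ _ h1, add_mul, one_mul, Nat.add_sub_cancel_left]

open Classical in
lemma pos_perm {n : ℕ} (x : Fin n → ℝ) (k : ℕ) (s : Equiv.Perm (Fin n)) :
    ((Finset.univ.powersetCard k).filter (fun B : Finset (Fin n) => 0 < sm x B s)).card =
      pos x k := by
  unfold pos
  refine Finset.card_bij (fun B _ => B.map s.toEmbedding) ?_ ?_ ?_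
  · intro B hB
    simp only [Finset.mem_filter, Finset.mem_powersetCard, Finset.card_map] at hB ⊢
    refine ⟨⟨Finset.subset_univ _, hB.1.2⟩, ?_⟩
    rw [Finset.sum_map]
    exact hB.2
  · intro B _ B' _ h
    exact Finset.map_injective _ h
  · intro B hB
    simp only [Finset.mem_filter, Finset.mem_powersetCard] at hB
    refine ⟨B.map s.symm.toEmbedding, ?_, ?_⟩
    · simp only [Finset.mem_filter, Finset.mem_powersetCard, Finset.card_map]
      refine ⟨⟨Finset.subset_univ _, hB.1.2⟩, ?_⟩
      unfold sm
      rw [Finset.sum_map]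
      simpa using hB.2
    · ext i
      simp

end MEA

theorem stmt_MEA : Stmt_EXC → Stmt_MEA := by
  classical
  intro hEXC n k q x hk hq
  have h1 : ∀ I : Finset (Fin n), I.card = k →
      (n.choose k : ℝ) * cnt (fun s => 0 < sm x I s) = (n.factorial : ℝ) * (pos x k : ℝ) := by
    intro I hI
    have h2 : ∀ J ∈ (Finset.univ : Finset (Fin n)).powersetCard k,
        cnt (fun s => 0 < sm x J s) = cnt (fun s => 0 < sm x I s) := by
      intro J hJ
      have hJk : J.card = k := (Finset.mem_powersetCard.1 hJ).2
      have := hEXC n x Unit (fun _ => J) (fun _ => I) (fun a b hab => absurd rfl hab)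
        (fun a b hab => absurd rfl hab) (fun _ => by rw [hJk, hI])
        (fun f => 0 < f ())
      exact this
    have h3 : (n.choose k : ℝ) * cnt (fun s => 0 < sm x I s) =
        ∑ J ∈ (Finset.univ : Finset (Fin n)).powersetCard k, cnt (fun s => 0 < sm x J s) := by
      rw [Finset.sum_congr rfl h2, Finset.sum_const, Finset.card_powersetCard, Finset.card_univ,
        Fintype.card_fin, nsmul_eq_mul]
    rw [h3]
    have h4 : ∀ J : Finset (Fin n), cnt (fun s => 0 < sm x J s) =
        ∑ s : Equiv.Perm (Fin n), if 0 < sm x J s then (1 : ℝ) else 0 := by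
      intro J
      unfold cnt
      rw [← Finset.sum_filter, Finset.sum_const, nsmul_eq_mul, mul_one]
    simp only [h4]
    rw [Finset.sum_comm]
    have h5 : ∀ s : Equiv.Perm (Fin n),
        ∑ J ∈ (Finset.univ : Finset (Fin n)).powersetCard k,
          (if 0 < sm x J s then (1 : ℝ) else 0) = (pos x k : ℝ) := by
      intro s
      rw [← MEA.pos_perm x k s, ← Finset.sum_filter, Finset.sum_const, nsmul_eq_mul, mul_one]
    simp only [h5]
    rw [Finset.sum_const, nsmul_eq_mul, Finset.card_univ, Fintype.card_perm, Fintype.card_fin]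
  have h6 : ∑ s : Equiv.Perm (Fin n), (nn x k q s : ℝ) =
      ∑ c ∈ Finset.range q, cnt (fun s => 0 < sm x (blk n k c) s) := by
    have h7 : ∀ s : Equiv.Perm (Fin n), (nn x k q s : ℝ) =
        ∑ c ∈ Finset.range q, if 0 < sm x (blk n k c) s then (1 : ℝ) else 0 := by
      intro s
      unfold nn
      rw [← Finset.sum_filter, Finset.sum_const, nsmul_eq_mul, mul_one]
    simp only [h7]
    rw [Finset.sum_comm]
    refine Finset.sum_congr rfl fun c _ => ?_
    unfold cnt
    rw [← Finset.sum_filter, Finset.sum_const, nsmul_eq_mul, mul_one]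
  rw [h6, Finset.mul_sum]
  have h8 : ∀ c ∈ Finset.range q, (n.choose k : ℝ) * cnt (fun s => 0 < sm x (blk n k c) s) =
      (n.factorial : ℝ) * (pos x k : ℝ) := by
    intro c hc
    exact h1 _ (MEA.card_blk n k q c hq (Finset.mem_range.1 hc))
  rw [Finset.sum_congr rfl h8, Finset.sum_const, Finset.card_range, nsmul_eq_mul]
  ring

end Pool.MM15
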