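import Pool.Agent.Work.MP_9999b5_mm.Interface

/-!
Block MOM (helper64): second and fourth moment of the sum of a random `k`-subset.
-/

set_option autoImplicit false

namespace Pool.MM15

open Finset

namespace MOM

/-- the number of `k`-subsets of a `t`-set which contain a given `i`-subset, extended so that
Pascal's rule always holds; the arguments are `k`, `i`, `t` -/
noncomputable def cc : ℕ → ℕ → ℕ → ℝ
  | k, 0, t => (t.choose k : ℝ)
  | 0, _ + 1, _ => 0
  | k + 1, i + 1, t + 1 => cc k i t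
  | k + 1, i + 1, 0 => cc k i 0 - cc k (i + 1) 0

theorem cc_zero (k t : ℕ) : cc k 0 t = (t.choose k : ℝ) := by
  cases k <;> rw [cc]

theorem cc_k0 (i t : ℕ) : cc 0 (i + 1) t = 0 := by
  rw [cc]

theorem cc_succ (k i t : ℕ) : cc (k + 1) (i + 1) (t + 1) = cc k i t := by
  rw [cc]

theorem pascal (i : ℕ) : ∀ k t : ℕ, cc (k + 1) i (t + 1) = cc k i t + cc (k + 1) i t := by
  induction i with
  | zero =>
    intro k t
    rw [cc_zero, cc_zero, cc_zero, Nat.choose_succ_succ]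
    push_cast
    ring
  | succ i ih =>
    intro k t
    rw [cc_succ]
    cases t with
    | zero =>
      have h : cc (k + 1) (i + 1) 0 = cc k i 0 - cc k (i + 1) 0 := by rw [cc]
      rw [h]
      ring
    | succ t =>
      rw [cc_succ]
      cases k with
      | zero =>
        rw [cc_k0]
        cases i with
        | zero => rw [cc_zero, cc_zero]; simp
        | succ i => rw [cc_k0, cc_k0]; simp
      | succ k =>
        rw [cc_succ]
        exact ih k t

theorem cc_desc (i : ℕ) : ∀ k t : ℕ, i ≤ t →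
    (t.descFactorial i : ℝ) * cc k i t = (k.descFactorial i : ℝ) * (t.choose k : ℝ) := by
  induction i with
  | zero =>
    intro k t _
    rw [cc_zero]
    simp
  | succ i ih =>
    intro k t hit
    obtain ⟨t, rfl⟩ : ∃ u, t = u + 1 := ⟨t - 1, by omega⟩
    cases k with
    | zero =>
      rw [cc_k0]
      simp
    | succ k =>
      rw [cc_succ, Nat.succ_descFactorial_succ, Nat.succ_descFactorial_succ]
      have h1 := ih k t (by omega)
      have h2 : ((t + 1 : ℕ) : ℝ) * (t.choose k : ℝ) =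
          ((t + 1).choose (k + 1) : ℝ) * ((k + 1 : ℕ) : ℝ) := by
        exact_mod_cast Nat.add_one_mul_choose_eq t k
      rw [Nat.cast_mul, Nat.cast_mul]
      calc ((t + 1 : ℕ) : ℝ) * (t.descFactorial i : ℝ) * cc k i t
          = ((t + 1 : ℕ) : ℝ) * ((t.descFactorial i : ℝ) * cc k i t) := by ring
        _ = ((t + 1 : ℕ) : ℝ) * ((k.descFactorial i : ℝ) * (t.choose k : ℝ)) := by rw [h1]
        _ = (k.descFactorial i : ℝ) * (((t + 1 : ℕ) : ℝ) * (t.choose k : ℝ)) := by ring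
        _ = _ := by rw [h2]; ring

theorem sum_insert_powersetCard {α : Type} [DecidableEq α] (K : Finset α) (x : α) (hx : x ∉ K)
    (k : ℕ) (g : Finset α → ℝ) :
    ∑ B ∈ (insert x K).powersetCard (k + 1), g B =
      ∑ B ∈ K.powersetCard (k + 1), g B + ∑ B ∈ K.powersetCard k, g (insert x B) := by
  rw [Finset.powersetCard_succ_insert hx, Finset.sum_union, Finset.sum_image]
  · intro A hA B hB hAB
    have hA' : x ∉ A := fun h => hx ((Finset.mem_powersetCard.1 hA).1 h)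
    have hB' : x ∉ B := fun h => hx ((Finset.mem_powersetCard.1 hB).1 h)
    rw [← Finset.erase_insert hA', ← Finset.erase_insert hB', hAB]
  · rw [Finset.disjoint_left]
    intro B hB hB2
    obtain ⟨A, _, rfl⟩ := Finset.mem_image.1 hB2
    exact hx ((Finset.mem_powersetCard.1 hB).1 (Finset.mem_insert_self x A))

theorem moments {α : Type} [DecidableEq α] (y : α → ℝ) (K : Finset α) : ∀ k : ℕ,
    ∑ _B ∈ K.powersetCard k, (1 : ℝ) = cc k 0 K.card ∧
    ∑ B ∈ K.powersetCard k, (∑ a ∈ B, y a) = cc k 1 K.card * ∑ a ∈ K, y a ∧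
    ∑ B ∈ K.powersetCard k, (∑ a ∈ B, y a) ^ 2 = cc k 1 K.card * ∑ a ∈ K, y a ^ 2 +
      cc k 2 K.card * ((∑ a ∈ K, y a) ^ 2 - ∑ a ∈ K, y a ^ 2) ∧
    ∑ B ∈ K.powersetCard k, (∑ a ∈ B, y a) ^ 3 = cc k 1 K.card * ∑ a ∈ K, y a ^ 3 +
      3 * cc k 2 K.card * ((∑ a ∈ K, y a) * (∑ a ∈ K, y a ^ 2) - ∑ a ∈ K, y a ^ 3) +
      cc k 3 K.card * ((∑ a ∈ K, y a) ^ 3 - 3 * (∑ a ∈ K, y a) * (∑ a ∈ K, y a ^ 2) +
        2 * ∑ a ∈ K, y a ^ 3) ∧
    ∑ B ∈ K.powersetCard k, (∑ a ∈ B, y a) ^ 4 = cc k 1 K.card * ∑ a ∈ K, y a ^ 4 +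
      cc k 2 K.card * (4 * ((∑ a ∈ K, y a) * (∑ a ∈ K, y a ^ 3) - ∑ a ∈ K, y a ^ 4) +
        3 * ((∑ a ∈ K, y a ^ 2) ^ 2 - ∑ a ∈ K, y a ^ 4)) +
      6 * cc k 3 K.card * ((∑ a ∈ K, y a) ^ 2 * (∑ a ∈ K, y a ^ 2) - (∑ a ∈ K, y a ^ 2) ^ 2 -
        2 * (∑ a ∈ K, y a) * (∑ a ∈ K, y a ^ 3) + 2 * ∑ a ∈ K, y a ^ 4) +
      cc k 4 K.card * ((∑ a ∈ K, y a) ^ 4 - 6 * (∑ a ∈ K, y a) ^ 2 * (∑ a ∈ K, y a ^ 2) +
        3 * (∑ a ∈ K, y a ^ 2) ^ 2 + 8 * (∑ a ∈ K, y a) * (∑ a ∈ K, y a ^ 3) -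
        6 * ∑ a ∈ K, y a ^ 4) := by
  induction K using Finset.induction_on with
  | empty =>
    intro k
    rw [Finset.card_empty, cc_zero]
    cases k with
    | zero => simp
    | succ k =>
      have h : (∅ : Finset α).powersetCard (k + 1) = ∅ := by
        rw [Finset.powersetCard_eq_empty]
        simp
      rw [h]
      simp
  | insert x K hx ih =>
    intro k
    rw [Finset.card_insert_of_notMem hx]
    cases k with
    | zero =>
      rw [cc_zero, cc_k0, cc_k0, cc_k0, cc_k0, Finset.powersetCard_zero]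
      simp
    | succ k =>
      obtain ⟨i0, i1, i2, i3, i4⟩ := ih k
      obtain ⟨j0, j1, j2, j3, j4⟩ := ih (k + 1)
      obtain ⟨u, hu⟩ : ∃ u, u = y x := ⟨_, rfl⟩
      have hins : ∀ B ∈ K.powersetCard k, ∑ a ∈ insert x B, y a = u + ∑ a ∈ B, y a := by
        intro B hB
        rw [Finset.sum_insert (fun h => hx ((Finset.mem_powersetCard.1 hB).1 h)), hu]
      have q1 := pascal 1 k K.card
      have q2 := pascal 2 k K.card
      have q3 := pascal 3 k K.card
      have q4 := pascal 4 k K.card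
      have q0 := pascal 0 k K.card
      have r1 := cc_succ k 0 K.card
      have r2 := cc_succ k 1 K.card
      have r3 := cc_succ k 2 K.card
      have r4 := cc_succ k 3 K.card
      simp only [Nat.zero_add, Nat.reduceAdd] at r1 r2 r3 r4
      have b1 : cc (k + 1) 1 K.card = cc k 0 K.card - cc k 1 K.card := by linarith
      have b2 : cc (k + 1) 2 K.card = cc k 1 K.card - cc k 2 K.card := by linarith
      have b3 : cc (k + 1) 3 K.card = cc k 2 K.card - cc k 3 K.card := by linarith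
      have b4 : cc (k + 1) 4 K.card = cc k 3 K.card - cc k 4 K.card := by linarith
      rw [b1] at j1
      rw [b1, b2] at j2
      rw [b1, b2, b3] at j3
      rw [b1, b2, b3, b4] at j4
      have e1 : ∑ B ∈ K.powersetCard k, (∑ a ∈ insert x B, y a) =
          u * ∑ _B ∈ K.powersetCard k, (1 : ℝ) + ∑ B ∈ K.powersetCard k, (∑ a ∈ B, y a) := by
        rw [Finset.sum_congr rfl hins, Finset.mul_sum, ← Finset.sum_add_distrib]
        exact Finset.sum_congr rfl fun B _ => by ring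
      have e2 : ∑ B ∈ K.powersetCard k, (∑ a ∈ insert x B, y a) ^ 2 =
          u ^ 2 * ∑ _B ∈ K.powersetCard k, (1 : ℝ) +
          2 * u * ∑ B ∈ K.powersetCard k, (∑ a ∈ B, y a) +
          ∑ B ∈ K.powersetCard k, (∑ a ∈ B, y a) ^ 2 := by
        rw [Finset.mul_sum, Finset.mul_sum, ← Finset.sum_add_distrib, ← Finset.sum_add_distrib]
        exact Finset.sum_congr rfl fun B hB => by rw [hins B hB]; ring
      have e3 : ∑ B ∈ K.powersetCard k, (∑ a ∈ insert x B, y a) ^ 3 =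
          u ^ 3 * ∑ _B ∈ K.powersetCard k, (1 : ℝ) +
          3 * u ^ 2 * ∑ B ∈ K.powersetCard k, (∑ a ∈ B, y a) +
          3 * u * ∑ B ∈ K.powersetCard k, (∑ a ∈ B, y a) ^ 2 +
          ∑ B ∈ K.powersetCard k, (∑ a ∈ B, y a) ^ 3 := by
        rw [Finset.mul_sum, Finset.mul_sum, Finset.mul_sum, ← Finset.sum_add_distrib,
          ← Finset.sum_add_distrib, ← Finset.sum_add_distrib]
        exact Finset.sum_congr rfl fun B hB => by rw [hins B hB]; ring
      have e4 : ∑ B ∈ K.powersetCard k, (∑ a ∈ insert x B, y a) ^ 4 =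
          u ^ 4 * ∑ _B ∈ K.powersetCard k, (1 : ℝ) +
          4 * u ^ 3 * ∑ B ∈ K.powersetCard k, (∑ a ∈ B, y a) +
          6 * u ^ 2 * ∑ B ∈ K.powersetCard k, (∑ a ∈ B, y a) ^ 2 +
          4 * u * ∑ B ∈ K.powersetCard k, (∑ a ∈ B, y a) ^ 3 +
          ∑ B ∈ K.powersetCard k, (∑ a ∈ B, y a) ^ 4 := by
        rw [Finset.mul_sum, Finset.mul_sum, Finset.mul_sum, Finset.mul_sum,
          ← Finset.sum_add_distrib, ← Finset.sum_add_distrib, ← Finset.sum_add_distrib,
          ← Finset.sum_add_distrib]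
        exact Finset.sum_congr rfl fun B hB => by rw [hins B hB]; ring
      rw [i0, i1] at e1
      rw [i0, i1, i2] at e2
      rw [i0, i1, i2, i3] at e3
      rw [i0, i1, i2, i3, i4] at e4
      have p1 : ∑ a ∈ insert x K, y a = u + ∑ a ∈ K, y a := by rw [Finset.sum_insert hx, hu]
      have p2 : ∑ a ∈ insert x K, y a ^ 2 = u ^ 2 + ∑ a ∈ K, y a ^ 2 := by
        rw [Finset.sum_insert hx, hu]
      have p3 : ∑ a ∈ insert x K, y a ^ 3 = u ^ 3 + ∑ a ∈ K, y a ^ 3 := by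
        rw [Finset.sum_insert hx, hu]
      have p4 : ∑ a ∈ insert x K, y a ^ 4 = u ^ 4 + ∑ a ∈ K, y a ^ 4 := by
        rw [Finset.sum_insert hx, hu]
      rw [sum_insert_powersetCard K x hx k, sum_insert_powersetCard K x hx k,
        sum_insert_powersetCard K x hx k, sum_insert_powersetCard K x hx k,
        sum_insert_powersetCard K x hx k, p1, p2, p3, p4, e1, e2, e3, e4, i0, j0, j1, j2, j3, j4,
        r1, r2, r3, r4]
      refine ⟨?_, ?_, ?_, ?_, ?_⟩
      · rw [q0]; ring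
      · ring
      · ring
      · ring
      · ring

theorem desc3 (t : ℕ) (ht : 2 ≤ t) :
    (t.descFactorial 3 : ℝ) = (t : ℝ) * (t - 1) * (t - 2) := by
  have h : t.descFactorial 3 = (t - 2) * ((t - 1) * t) := by
    simp [Nat.descFactorial]
  rw [h]
  push_cast [Nat.cast_sub ht, Nat.cast_sub (show 1 ≤ t by omega)]
  ring

theorem desc4 (t : ℕ) (ht : 2 ≤ t) :
    (t.descFactorial 4 : ℝ) = (t : ℝ) * (t - 1) * (t - 2) * (t - 3) := by
  have h : t.descFactorial 4 = (t - 3) * t.descFactorial 3 := by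
    rw [Nat.descFactorial_succ]
  rw [h, Nat.cast_mul, desc3 t ht]
  rcases Nat.lt_or_ge t 3 with h3 | h3
  · obtain rfl : t = 2 := by omega
    norm_num
  · rw [Nat.cast_sub h3]
    push_cast
    ring

end MOM

theorem stmt_MOM : Stmt_MOM := by
  intro α _ K y k hk hK hkK hy
  obtain ⟨_, _, m2, _, m4⟩ := MOM.moments y K k
  rw [m2, m4, hy]
  obtain ⟨t, ht⟩ : ∃ t, t = K.card := ⟨_, rfl⟩
  rw [← ht] at hK hkK ⊢
  have c1 := MOM.cc_desc 1 k t (by omega)
  have c2 := MOM.cc_desc 2 k t (by omega)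
  have c3 := MOM.cc_desc 3 k t (by omega)
  have c4 := MOM.cc_desc 4 k t (by omega)
  rw [Nat.descFactorial_one, Nat.descFactorial_one] at c1
  rw [Nat.cast_descFactorial_two, Nat.cast_descFactorial_two] at c2
  rw [MOM.desc3 t (by omega), MOM.desc3 k hk] at c3
  rw [MOM.desc4 t (by omega), MOM.desc4 k hk] at c4
  constructor
  · linear_combination ((t : ℝ) - 1) * (∑ a ∈ K, y a ^ 2) * c1 - (∑ a ∈ K, y a ^ 2) * c2
  · linear_combination
      ((t : ℝ) - 1) * (t - 2) * (t - 3) * (∑ a ∈ K, y a ^ 4) * c1 +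
      ((t : ℝ) - 2) * (t - 3) * (3 * (∑ a ∈ K, y a ^ 2) ^ 2 - 7 * ∑ a ∈ K, y a ^ 4) * c2 +
      ((t : ℝ) - 3) * (12 * (∑ a ∈ K, y a ^ 4) - 6 * (∑ a ∈ K, y a ^ 2) ^ 2) * c3 +
      (3 * (∑ a ∈ K, y a ^ 2) ^ 2 - 6 * ∑ a ∈ K, y a ^ 4) * c4

end Pool.MM15
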