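import Pool.Agent.Work.MP_9999b5_mm.Interface

set_option autoImplicit false

namespace Pool.MM15

open Finset

theorem OME.sum_sum {α : Type} [DecidableEq α] (K : Finset α) (z : α → ℝ) (k : ℕ) (hk : 1 ≤ k) :
    ∑ B ∈ K.powersetCard k, ∑ a ∈ B, z a
      = ((K.card - 1).choose (k - 1) : ℝ) * ∑ a ∈ K, z a := by
  have h1 : ∀ B ∈ K.powersetCard k, ∑ a ∈ B, z a = ∑ a ∈ K, if a ∈ B then z a else 0 := by
    intro B hB
    rw [Finset.mem_powersetCard] at hB
    rw [← Finset.sum_filter]
    congr 1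
    ext a
    simp only [Finset.mem_filter]
    exact ⟨fun h => ⟨hB.1 h, h⟩, fun h => h.2⟩
  rw [Finset.sum_congr rfl h1, Finset.sum_comm, Finset.mul_sum]
  apply Finset.sum_congr rfl
  intro a ha
  rw [← Finset.sum_filter, Finset.sum_const, nsmul_eq_mul]
  congr 2
  have h2 := Finset.card_filter_powersetCard_subset {a} K k (by simpa using ha) (by simpa using hk)
  rw [Finset.card_singleton] at h2
  rw [← h2]
  congr 1
  ext B
  simp [Finset.mem_filter, Finset.singleton_subset_iff]

theorem stmt_OME : Stmt_HZZ → Stmt_MOM → Stmt_HYP → Stmt_OME := by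
  intro hHZZ hMOM hHYP α _ K y k hk h3 h4 hinj h0
  classical
  have ht : (6 : ℝ) ≤ (K.card : ℝ) := by
    have : 6 ≤ K.card := by omega
    exact_mod_cast this
  set t : ℝ := (K.card : ℝ) with htdef
  set m : ℝ := (∑ a ∈ K, y a) / t with hm
  have hm0 : 0 ≤ m := div_nonneg h0 (by linarith)
  set z : α → ℝ := fun a => y a - m with hz
  have hzsum : ∑ a ∈ K, z a = 0 := by
    simp only [hz]
    rw [Finset.sum_sub_distrib, Finset.sum_const, nsmul_eq_mul, hm]
    field_simp
    ring
  have hY : ∀ B ∈ K.powersetCard k, ∑ a ∈ B, z a ≤ ∑ a ∈ B, y a := by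
    intro B _
    apply Finset.sum_le_sum
    intro a _
    simp only [hz]
    linarith
  have hYsum : ∑ B ∈ K.powersetCard k, ∑ a ∈ B, z a = 0 := by
    rw [OME.sum_sum K z k (by omega), hzsum, mul_zero]
  have hH := hHZZ (Finset α) (K.powersetCard k) (fun B => ∑ a ∈ B, z a) hYsum
  have hF := hHYP α K z k hk h3 h4 hzsum
  obtain ⟨hM2, _⟩ := hMOM α K z k hk (by omega) (by omega) hzsum
  set M2 : ℝ := ∑ B ∈ K.powersetCard k, (∑ a ∈ B, z a) ^ 2 with hM2d
  set M4 : ℝ := ∑ B ∈ K.powersetCard k, (∑ a ∈ B, z a) ^ 4 with hM4d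
  have hC : (0 : ℝ) < (K.card.choose k : ℝ) := by
    exact_mod_cast Nat.choose_pos (by omega : k ≤ K.card)
  have hS2 : 0 < ∑ a ∈ K, z a ^ 2 := by
    have h2 : 1 < K.card := by omega
    obtain ⟨a, ha, b, hb, hab⟩ := Finset.one_lt_card.1 h2
    have hzab : z a ≠ z b := by
      intro h
      apply hab
      apply hinj ha hb
      simp only [hz] at h
      linarith
    have hne : z a ≠ 0 ∨ z b ≠ 0 := by
      by_contra hcon
      push Not at hcon
      exact hzab (hcon.1.trans hcon.2.symm)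
    rcases hne with h | h
    · exact lt_of_lt_of_le (by positivity)
        (Finset.single_le_sum (f := fun a => z a ^ 2) (fun i _ => sq_nonneg _) ha)
    · exact lt_of_lt_of_le (by positivity)
        (Finset.single_le_sum (f := fun a => z a ^ 2) (fun i _ => sq_nonneg _) hb)
  have hk' : (2 : ℝ) ≤ (k : ℝ) := by exact_mod_cast hk
  have h3' : 3 * (k : ℝ) ≤ t := by rw [htdef]; exact_mod_cast h3
  have hM2p : 0 < M2 := by
    have hR : 0 < (K.card.choose k : ℝ) * k * (t - k) * ∑ a ∈ K, z a ^ 2 := by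
      apply mul_pos (mul_pos (mul_pos hC (by linarith)) (by linarith)) hS2
    rw [← hM2] at hR
    have hD : 0 < t * (t - 1) := mul_pos (by linarith) (by linarith)
    by_contra hcon
    push Not at hcon
    have := mul_nonpos_of_nonneg_of_nonpos hD.le hcon
    linarith
  set N : ℝ := (((K.powersetCard k).filter (fun B => 0 < ∑ a ∈ B, z a)).card : ℝ) with hN
  have hN' : N ≤ (((K.powersetCard k).filter (fun B => 0 < ∑ a ∈ B, y a)).card : ℝ) := by
    rw [hN]
    exact_mod_cast Finset.card_le_card (by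
      intro B hB
      rw [Finset.mem_filter] at hB ⊢
      exact ⟨hB.1, lt_of_lt_of_le hB.2 (hY B hB.1)⟩)
  have hN0 : 0 ≤ N := by rw [hN]; positivity
  have hfin : 2 * (K.card.choose k : ℝ) ≤ 13 * N := by
    have h1 : (K.card.choose k : ℝ) * (6 * M2 ^ 2) ≤ (K.card.choose k : ℝ) * (13 * N * M4) :=
      mul_le_mul_of_nonneg_left hH hC.le
    have h2 : 13 * N * ((K.card.choose k : ℝ) * M4) ≤ 13 * N * (3 * M2 ^ 2) :=
      mul_le_mul_of_nonneg_left hF (by linarith)
    have h3'' : (3 * M2 ^ 2) * (2 * (K.card.choose k : ℝ)) ≤ (3 * M2 ^ 2) * (13 * N) := by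
      nlinarith
    exact le_of_mul_le_mul_left h3'' (by positivity)
  calc 2 * (K.card.choose k : ℝ) ≤ 13 * N := hfin
    _ ≤ _ := by
      have := mul_le_mul_of_nonneg_left hN' (by norm_num : (0 : ℝ) ≤ 13)
      exact this

end Pool.MM15
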