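import Pool.Agent.Work.MP_9999b5_mm.Interface

set_option autoImplicit false

namespace Pool.MM15

open Finset

namespace PAI

open Classical in
theorem cnt_eq {n : ℕ} (P : Equiv.Perm (Fin n) → Prop) :
    cnt P = ∑ s : Equiv.Perm (Fin n), (if P s then (1 : ℝ) else 0) := by
  unfold cnt
  rw [Finset.card_filter]
  push_cast
  rfl

theorem mem_iv {n a b : ℕ} {p : Fin n} : p ∈ iv n a b ↔ a ≤ p.val ∧ p.val < b := by
  unfold iv
  rw [Finset.mem_filter]
  exact ⟨fun h => h.2, fun h => ⟨Finset.mem_univ _, h⟩⟩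

theorem iv_disj {n a b c d : ℕ} (h : b ≤ c) : Disjoint (iv n a b) (iv n c d) := by
  rw [Finset.disjoint_left]
  intro p hp hq
  rw [mem_iv] at hp hq
  omega

theorem iv_card {n a b : ℕ} (h : b ≤ n) : (iv n a b).card = b - a := by
  have h1 : (iv n a b).map Fin.valEmbedding = Finset.Ico a b := by
    ext q
    rw [Finset.mem_map, Finset.mem_Ico]
    constructor
    · rintro ⟨p, hp, rfl⟩
      exact mem_iv.1 hp
    · intro hq
      exact ⟨⟨q, by omega⟩, mem_iv.2 hq, rfl⟩
  rw [← Finset.card_map Fin.valEmbedding, h1, Nat.card_Ico]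

theorem blk_card {n k c : ℕ} (h : (c + 1) * k ≤ n) : (blk n k c).card = k := by
  unfold blk
  rw [iv_card h]
  have : (c + 1) * k = c * k + k := by ring
  omega

theorem blk_disj_lt {n k c d : ℕ} (h : c < d) : Disjoint (blk n k c) (blk n k d) :=
  iv_disj (Nat.mul_le_mul_right k h)

theorem blk_disj {n k c d : ℕ} (h : c ≠ d) : Disjoint (blk n k c) (blk n k d) := by
  rcases lt_or_gt_of_ne h with h | h
  · exact blk_disj_lt h
  · exact (blk_disj_lt h).symm

/-- The family: blocks `0..j-1` and two more sets. -/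
def fam (n k j : ℕ) (X Y : Finset (Fin n)) : Fin j ⊕ Bool → Finset (Fin n) :=
  Sum.elim (fun c => blk n k c.val) (fun b => if b then Y else X)

theorem fam_disj {n k j : ℕ} {X Y : Finset (Fin n)} (hX : ∀ c < j, Disjoint (blk n k c) X)
    (hY : ∀ c < j, Disjoint (blk n k c) Y) (hXY : Disjoint X Y) :
    ∀ a b, a ≠ b → Disjoint (fam n k j X Y a) (fam n k j X Y b) := by
  intro a b hab
  rcases a with c | b1
  · rcases b with d | b2
    · refine blk_disj (fun h => hab ?_)
      rw [Fin.ext h]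
    · cases b2
      · exact hX c.val c.isLt
      · exact hY c.val c.isLt
  · rcases b with d | b2
    · cases b1
      · exact (hX d.val d.isLt).symm
      · exact (hY d.val d.isLt).symm
    · cases b1 <;> cases b2
      · exact absurd rfl hab
      · exact hXY
      · exact hXY.symm
      · exact absurd rfl hab

theorem pair_eq (hEXC : Stmt_EXC) {n k j : ℕ} (x : Fin n → ℝ) {X Y : Finset (Fin n)}
    (hn : (j + 2) * k ≤ n)
    (hX : ∀ c < j, Disjoint (blk n k c) X) (hY : ∀ c < j, Disjoint (blk n k c) Y)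
    (hXY : Disjoint X Y) (cX : X.card = k) (cY : Y.card = k) :
    cnt (fun s => Neg x k j s ∧ 0 < sm x X s ∧ 0 < sm x Y s) = qq x k j := by
  have hj : (j + 1) * k ≤ n := le_trans (Nat.mul_le_mul_right k (by omega)) hn
  have hj2 : (j + 1 + 1) * k ≤ n := hn
  have h := hEXC n x (Fin j ⊕ Bool) (fam n k j X Y) (fam n k j (blk n k j) (blk n k (j + 1)))
    (fam_disj hX hY hXY)
    (fam_disj (fun c hc => blk_disj (by omega)) (fun c hc => blk_disj (by omega)) (blk_disj (by omega)))
    (by
      intro a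
      rcases a with c | b
      · rfl
      · cases b
        · exact cX.trans (blk_card hj).symm
        · exact cY.trans (blk_card hj2).symm)
    (fun v => (∀ c : Fin j, v (Sum.inl c) ≤ 0) ∧ 0 < v (Sum.inr false) ∧ 0 < v (Sum.inr true))
  have e1 : ∀ (X Y : Finset (Fin n)), (fun s => (∀ c : Fin j, sm x (fam n k j X Y (Sum.inl c)) s ≤ 0) ∧
      0 < sm x (fam n k j X Y (Sum.inr false)) s ∧ 0 < sm x (fam n k j X Y (Sum.inr true)) s)
      = (fun s => Neg x k j s ∧ 0 < sm x X s ∧ 0 < sm x Y s) := by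
    intro X Y
    funext s
    apply propext
    constructor
    · rintro ⟨h1, h2, h3⟩
      exact ⟨fun c hc => h1 ⟨c, hc⟩, h2, h3⟩
    · rintro ⟨h1, h2, h3⟩
      exact ⟨fun c => h1 c.val c.isLt, h2, h3⟩
  rw [e1 X Y, e1 (blk n k j) (blk n k (j + 1))] at h
  exact h

end PAI

open PAI in
open Classical in
theorem stmt_PAI (hEXC : Stmt_EXC) (hOME : Stmt_OME) : Stmt_PAI := by
  intro n k j t x hk ht1 ht2 hn hx
  set K0 : Finset (Fin n) := iv n (j * k) (j * k + t) with hK0
  set K1 : Finset (Fin n) := iv n (j * k + t) (j * k + 2 * t) with hK1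
  have hjk : (j + 4) * k = j * k + 4 * k := by ring
  have hjk2 : (j + 2) * k = j * k + 2 * k := by ring
  have hc0 : K0.card = t := by
    rw [hK0, iv_card (by omega)]; omega
  have hc1 : K1.card = t := by
    rw [hK1, iv_card (by omega)]; omega
  have hd0 : ∀ c < j, Disjoint (blk n k c) K0 := by
    intro c hc
    exact iv_disj (Nat.mul_le_mul_right k hc)
  have hd1 : ∀ c < j, Disjoint (blk n k c) K1 := by
    intro c hc
    exact iv_disj (le_trans (Nat.mul_le_mul_right k hc) (Nat.le_add_right _ _))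
  have hd01 : Disjoint K0 K1 := iv_disj le_rfl
  set P0 := K0.powersetCard k with hP0
  set P1 := K1.powersetCard k with hP1
  have hpair : ∀ B ∈ P0, ∀ B' ∈ P1,
      cnt (fun s => Neg x k j s ∧ 0 < sm x B s ∧ 0 < sm x B' s) = qq x k j := by
    intro B hB B' hB'
    rw [hP0, Finset.mem_powersetCard] at hB
    rw [hP1, Finset.mem_powersetCard] at hB'
    exact pair_eq hEXC x (by omega) (fun c hc => Finset.disjoint_of_subset_right hB.1 (hd0 c hc))
      (fun c hc => Finset.disjoint_of_subset_right hB'.1 (hd1 c hc))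
      (Finset.disjoint_of_subset_left hB.1 (Finset.disjoint_of_subset_right hB'.1 hd01)) hB.2 hB'.2
  set C : ℝ := (t.choose k : ℝ) with hC
  have hCpos : 0 < C := by
    rw [hC]
    exact_mod_cast Nat.choose_pos (by omega)
  have cP0 : (P0.card : ℝ) = C := by rw [hP0, Finset.card_powersetCard, hc0]
  have cP1 : (P1.card : ℝ) = C := by rw [hP1, Finset.card_powersetCard, hc1]
  have hsum1 : ∑ B ∈ P0, ∑ B' ∈ P1,
      cnt (fun s => Neg x k j s ∧ 0 < sm x B s ∧ 0 < sm x B' s) = C * (C * qq x k j) := by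
    rw [Finset.sum_congr rfl (fun B hB => Finset.sum_congr rfl (fun B' hB' => hpair B hB B' hB'))]
    rw [Finset.sum_const, Finset.sum_const, nsmul_eq_mul, nsmul_eq_mul, cP0, cP1]
  set N0 : Equiv.Perm (Fin n) → ℝ := fun s => ((P0.filter (fun B => 0 < sm x B s)).card : ℝ) with hN0
  set N1 : Equiv.Perm (Fin n) → ℝ := fun s => ((P1.filter (fun B => 0 < sm x B s)).card : ℝ) with hN1
  have hsum2 : ∑ B ∈ P0, ∑ B' ∈ P1,
      cnt (fun s => Neg x k j s ∧ 0 < sm x B s ∧ 0 < sm x B' s)
      = ∑ s : Equiv.Perm (Fin n), (if Neg x k j s then N0 s * N1 s else 0) := by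
    have h1 : ∀ B ∈ P0, ∀ B' ∈ P1, cnt (fun s => Neg x k j s ∧ 0 < sm x B s ∧ 0 < sm x B' s)
        = ∑ s : Equiv.Perm (Fin n), (if Neg x k j s then (if 0 < sm x B s then (1 : ℝ) else 0) *
          (if 0 < sm x B' s then (1 : ℝ) else 0) else 0) := by
      intro B _ B' _
      rw [cnt_eq]
      refine Finset.sum_congr rfl (fun s _ => ?_)
      by_cases a : Neg x k j s <;> by_cases b : 0 < sm x B s <;> by_cases c : 0 < sm x B' s <;>
        simp [a, b, c]
    rw [Finset.sum_congr rfl (fun B hB => Finset.sum_congr rfl (fun B' hB' => h1 B hB B' hB'))]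
    have h2 : ∀ B ∈ P0, ∑ B' ∈ P1, ∑ s : Equiv.Perm (Fin n),
        (if Neg x k j s then (if 0 < sm x B s then (1 : ℝ) else 0) *
          (if 0 < sm x B' s then (1 : ℝ) else 0) else 0)
        = ∑ s : Equiv.Perm (Fin n), ∑ B' ∈ P1, (if Neg x k j s then (if 0 < sm x B s then (1 : ℝ) else 0) *
          (if 0 < sm x B' s then (1 : ℝ) else 0) else 0) := fun B _ => Finset.sum_comm
    rw [Finset.sum_congr rfl h2, Finset.sum_comm]
    refine Finset.sum_congr rfl (fun s _ => ?_)
    by_cases a : Neg x k j s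
    · simp only [if_pos a]
      have e0 : N0 s = ∑ B ∈ P0, (if 0 < sm x B s then (1 : ℝ) else 0) := by
        rw [hN0]
        simp only
        rw [Finset.card_filter]
        push_cast
        rfl
      have e1 : N1 s = ∑ B ∈ P1, (if 0 < sm x B s then (1 : ℝ) else 0) := by
        rw [hN1]
        simp only
        rw [Finset.card_filter]
        push_cast
        rfl
      rw [e0, e1, Finset.sum_mul_sum]
    · simp only [if_neg a, Finset.sum_const_zero]
  have hN0nn : ∀ s, 0 ≤ N0 s := fun s => Nat.cast_nonneg _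
  have hN1nn : ∀ s, 0 ≤ N1 s := fun s => Nat.cast_nonneg _
  have hlow : ∀ s : Equiv.Perm (Fin n),
      (4 * C ^ 2) * (if (Neg x k j s ∧ 0 ≤ sm x (iv n (j * k) (j * k + t)) s ∧
        0 ≤ sm x (iv n (j * k + t) (j * k + 2 * t)) s) then (1 : ℝ) else 0)
      ≤ 169 * (if Neg x k j s then N0 s * N1 s else 0) := by
    intro s
    by_cases a : Neg x k j s
    · rw [if_pos a]
      by_cases b : (Neg x k j s ∧ 0 ≤ sm x (iv n (j * k) (j * k + t)) s ∧
        0 ≤ sm x (iv n (j * k + t) (j * k + 2 * t)) s)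
      · rw [if_pos b]
        obtain ⟨_, b0, b1⟩ := b
        have hinj : Function.Injective (fun p : Fin n => x (s p)) :=
          fun p q h => s.injective (hx h)
        have o0 := hOME (Fin n) K0 (fun p => x (s p)) k hk (by omega) (by omega)
          (hinj.injOn) b0
        have o1 := hOME (Fin n) K1 (fun p => x (s p)) k hk (by omega) (by omega)
          (hinj.injOn) b1
        rw [hc0] at o0
        rw [hc1] at o1
        have q0 : 2 * C ≤ 13 * N0 s := by
          refine le_trans o0 (le_of_eq ?_)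
          rfl
        have q1 : 2 * C ≤ 13 * N1 s := by
          refine le_trans o1 (le_of_eq ?_)
          rfl
        nlinarith [mul_le_mul q0 q1 (by positivity) (by linarith [hN0nn s] : 0 ≤ 13 * N0 s)]
      · rw [if_neg b, mul_zero]
        exact mul_nonneg (by norm_num) (mul_nonneg (hN0nn s) (hN1nn s))
    · have b : ¬ (Neg x k j s ∧ 0 ≤ sm x (iv n (j * k) (j * k + t)) s ∧
        0 ≤ sm x (iv n (j * k + t) (j * k + 2 * t)) s) := fun h => a h.1
      rw [if_neg b, if_neg a]
      simp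
  have hfin := Finset.sum_le_sum (fun s (_ : s ∈ (Finset.univ : Finset (Equiv.Perm (Fin n)))) => hlow s)
  rw [← Finset.mul_sum, ← Finset.mul_sum, ← hsum2, hsum1] at hfin
  have huu : uu x k j t = ∑ s : Equiv.Perm (Fin n),
      (if (Neg x k j s ∧ 0 ≤ sm x (iv n (j * k) (j * k + t)) s ∧
        0 ≤ sm x (iv n (j * k + t) (j * k + 2 * t)) s) then (1 : ℝ) else 0) := by
    unfold uu
    rw [cnt_eq]
    refine Finset.sum_congr rfl (fun s _ => ?_)
    split_ifs <;> rfl
  rw [← huu] at hfin
  have hC2 : 0 < C ^ 2 := by positivity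
  have h9 : C ^ 2 * (4 * uu x k j t) ≤ C ^ 2 * (169 * qq x k j) := by nlinarith
  exact le_of_mul_le_mul_left h9 hC2

end Pool.MM15
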