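import Pool.Agent.Work.MP_9999b5_mm.EXC
import Pool.Agent.Work.MP_9999b5_mm.KAT
import Pool.Agent.Work.MP_9999b5_mm.ARC
import Pool.Agent.Work.MP_9999b5_mm.LOC
import Pool.Agent.Work.MP_9999b5_mm.HZZ
import Pool.Agent.Work.MP_9999b5_mm.MOM
import Pool.Agent.Work.MP_9999b5_mm.HYP
import Pool.Agent.Work.MP_9999b5_mm.OME
import Pool.Agent.Work.MP_9999b5_mm.PAI
import Pool.Agent.Work.MP_9999b5_mm.CNT
import Pool.Agent.Work.MP_9999b5_mm.MEA
import Pool.Agent.Work.MP_9999b5_mm.NUM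
import Pool.Agent.Work.MP_9999b5_mm.FIN1
import Pool.Agent.Work.MP_9999b5_mm.FIN2

set_option autoImplicit false

namespace Pool.MM15

open Pool.Agent.Work.MaxSums

theorem fin1 : Stmt_FIN1 :=
  stmt_FIN1 (stmt_LOC stmt_EXC stmt_KAT stmt_ARC)
    (stmt_PAI stmt_EXC (stmt_OME stmt_HZZ stmt_MOM (stmt_HYP stmt_MOM)))
    (stmt_CNT stmt_EXC) (stmt_MEA stmt_EXC) stmt_NUM

theorem final (k n : ℕ) (hk : 0 < k) (hn : 76 * k ≤ 5 * n) :
    IsGreatest (values k n) ((n - 1).choose k) ∧ MMS k n :=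
  FIN2.final fin1 k n hk hn

end Pool.MM15
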