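import Mathlib

set_option autoImplicit false

/-!
Q1 of MP_9999b5 (Manickam-Miklos-Singhi in the strict form, distinct reals) for `n >= 15.2 k`.
See BLUEPRINT.md in this folder.

Everything lives on the arrangements `s : Equiv.Perm (Fin n)`: position `p` carries the number
`x (s p)`.  All probabilities are counts of arrangements (`cnt`), nothing is normalised.
-/

namespace Pool.MM15

open Finset

/-- The sum of the numbers on the positions `I` in the arrangement `s`. -/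
noncomputable def sm {n : ℕ} (x : Fin n → ℝ) (I : Finset (Fin n)) (s : Equiv.Perm (Fin n)) : ℝ :=
  ∑ p ∈ I, x (s p)

open Classical in
/-- The number of arrangements with the property `P`. -/
noncomputable def cnt {n : ℕ} (P : Equiv.Perm (Fin n) → Prop) : ℝ :=
  ((Finset.univ.filter P).card : ℝ)

/-- The positions `a, a+1, ..., b-1`. -/
def iv (n a b : ℕ) : Finset (Fin n) := Finset.univ.filter (fun p : Fin n => a ≤ p.val ∧ p.val < b)

/-- Block number `c`: the positions `c k, ..., (c+1) k - 1`. -/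
def blk (n k c : ℕ) : Finset (Fin n) := iv n (c * k) ((c + 1) * k)

/-- The first `i` blocks all have sum `≤ 0`. -/
def Neg {n : ℕ} (x : Fin n → ℝ) (k i : ℕ) (s : Equiv.Perm (Fin n)) : Prop :=
  ∀ c < i, sm x (blk n k c) s ≤ 0

/-- `hh i` = number of arrangements in which the first `i` blocks have sum `≤ 0`. -/
noncomputable def hh {n : ℕ} (x : Fin n → ℝ) (k i : ℕ) : ℝ := cnt (Neg x k i)

/-- The first `j` blocks have sum `≤ 0`, the next two blocks have sum `> 0`. -/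
noncomputable def qq {n : ℕ} (x : Fin n → ℝ) (k j : ℕ) : ℝ :=
  cnt (fun s => Neg x k j s ∧ 0 < sm x (blk n k j) s ∧ 0 < sm x (blk n k (j + 1)) s)

/-- The first `j` blocks have sum `≤ 0`, the next two intervals of length `t` have sum `≥ 0`. -/
noncomputable def uu {n : ℕ} (x : Fin n → ℝ) (k j t : ℕ) : ℝ :=
  cnt (fun s => Neg x k j s ∧ 0 ≤ sm x (iv n (j * k) (j * k + t)) s ∧
    0 ≤ sm x (iv n (j * k + t) (j * k + 2 * t)) s)

open Classical in
/-- The number of blocks among the first `q` with positive sum. -/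
noncomputable def nn {n : ℕ} (x : Fin n → ℝ) (k q : ℕ) (s : Equiv.Perm (Fin n)) : ℕ :=
  ((Finset.range q).filter (fun c => 0 < sm x (blk n k c) s)).card

open Classical in
/-- The number of `k`-subsets of `Fin n` with positive sum. -/
noncomputable def pos {n : ℕ} (x : Fin n → ℝ) (k : ℕ) : ℕ :=
  ((Finset.univ.powersetCard k).filter (fun B : Finset (Fin n) => 0 < ∑ i ∈ B, x i)).card

/-- EXC (exchangeability): the joint law of the sums over disjoint position sets depends only on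
their sizes. -/
def Stmt_EXC : Prop := ∀ (n : ℕ) (x : Fin n → ℝ) (ι : Type) [Fintype ι]
  (I J : ι → Finset (Fin n)), (∀ a b, a ≠ b → Disjoint (I a) (I b)) →
  (∀ a b, a ≠ b → Disjoint (J a) (J b)) → (∀ a, (I a).card = (J a).card) →
  ∀ Φ : (ι → ℝ) → Prop,
    cnt (fun s => Φ (fun a => sm x (I a) s)) = cnt (fun s => Φ (fun a => sm x (J a) s))

/-- KAT (supersaturated Katona lemma on the cycle `ZMod m`, arcs of length `t`). -/
def Stmt_KAT : Prop := ∀ (m t : ℕ) [NeZero m], 1 ≤ t → 2 * t ≤ m → ∀ S : Finset (ZMod m),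
  (t : ℝ) * S.card ≤ (t : ℝ) ^ 2
    + ((t : ℝ) - 1) * ((S.filter (fun i => i + (t : ZMod m) ∈ S)).card : ℝ)
    + ∑ d ∈ Finset.Icc t (m - t), ((S.filter (fun i => i + (d : ZMod m) ∈ S)).card : ℝ)

/-- The arc of length `len` which starts at the place `a` of the cycle `ZMod m` formed by the
positions `b, ..., b+m-1` (used with `n = b + m`): the position `b + i` sits at the place `i`. -/
def arc (n b m : ℕ) (a : ZMod m) (len : ℕ) : Finset (Fin n) :=
  Finset.univ.filter (fun p : Fin n => b ≤ p.val ∧ (((p.val - b : ℕ) : ZMod m) - a).val < len)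

/-- ARC (elementary facts on arcs). -/
def Stmt_ARC : Prop := ∀ (n b m : ℕ) [NeZero m], n = b + m →
  (∀ (a : ZMod m) (len : ℕ), len ≤ m → (arc n b m a len).card = len) ∧
  (∀ (a : ZMod m) (u v len len' : ℕ), u + len ≤ v → v + len' ≤ m →
    Disjoint (arc n b m (a + (u : ZMod m)) len) (arc n b m (a + (v : ZMod m)) len')) ∧
  (∀ (a : ZMod m) (len : ℕ) (c d : ℕ), d ≤ b → Disjoint (arc n b m a len) (iv n c d)) ∧
  (∀ (a : ZMod m) (l1 l2 : ℕ) (f : Fin n → ℝ), l1 + l2 ≤ m →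
    ∑ p ∈ arc n b m a (l1 + l2), f p
      = ∑ p ∈ arc n b m a l1, f p + ∑ p ∈ arc n b m (a + (l1 : ZMod m)) l2, f p) ∧
  (∀ (a : ZMod m), arc n b m a m = iv n b n)

/-- LOC (local inequality): `n = (j+4) k + t`, `3k <= t <= 4k`, total sum `≥ 0`. -/
def Stmt_LOC : Prop := ∀ (n k j t : ℕ) (x : Fin n → ℝ), 1 ≤ k → 3 * k ≤ t → t ≤ 4 * k →
  n = (j + 4) * k + t → 0 ≤ ∑ i, x i →
  (t : ℝ) * (4 * k + t) * hh x k (j + 4) ≤ (t : ℝ) ^ 2 * hh x k j
    + 4 * (k : ℝ) * (4 * k + t) * uu x k j t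

/-- HZZ (He-Zhang-Zhang fourth moment inequality, counting form). -/
def Stmt_HZZ : Prop := ∀ (α : Type) (s : Finset α) (Y : α → ℝ), ∑ a ∈ s, Y a = 0 →
  6 * (∑ a ∈ s, Y a ^ 2) ^ 2 ≤ 13 * ((s.filter (fun a => 0 < Y a)).card : ℝ) * ∑ a ∈ s, Y a ^ 4

/-- MOM (second and fourth moment of the sum of a random `k`-subset of a centred list). -/
def Stmt_MOM : Prop := ∀ (α : Type) [DecidableEq α] (K : Finset α) (y : α → ℝ) (k : ℕ), 2 ≤ k →
  4 ≤ K.card → k ≤ K.card → ∑ a ∈ K, y a = 0 →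
  ((K.card : ℝ) * (K.card - 1) * ∑ B ∈ K.powersetCard k, (∑ a ∈ B, y a) ^ 2
      = (K.card.choose k : ℝ) * k * (K.card - k) * ∑ a ∈ K, y a ^ 2) ∧
  ((K.card : ℝ) * (K.card - 1) * (K.card - 2) * (K.card - 3) *
      ∑ B ∈ K.powersetCard k, (∑ a ∈ B, y a) ^ 4
      = (K.card.choose k : ℝ) * k * (K.card - k) *
        (((K.card : ℝ) * (K.card + 1) - 6 * k * (K.card - k)) * ∑ a ∈ K, y a ^ 4
          + 3 * (k - 1) * (K.card - k - 1) * (∑ a ∈ K, y a ^ 2) ^ 2))

/-- HYP (fourth moment of the sum of a random `k`-subset of a `t`-set, `3k <= t <= 4k`). -/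
def Stmt_HYP : Prop := ∀ (α : Type) [DecidableEq α] (K : Finset α) (y : α → ℝ) (k : ℕ), 2 ≤ k →
  3 * k ≤ K.card → K.card ≤ 4 * k → ∑ a ∈ K, y a = 0 →
  (K.card.choose k : ℝ) * ∑ B ∈ K.powersetCard k, (∑ a ∈ B, y a) ^ 4 ≤
    3 * (∑ B ∈ K.powersetCard k, (∑ a ∈ B, y a) ^ 2) ^ 2

/-- OME: a `t`-set of distinct numbers with sum `≥ 0`, `3k <= t <= 4k`, has at least the
proportion `2/13` of `k`-subsets with positive sum. -/
def Stmt_OME : Prop := ∀ (α : Type) [DecidableEq α] (K : Finset α) (y : α → ℝ) (k : ℕ), 2 ≤ k →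
  3 * k ≤ K.card → K.card ≤ 4 * k → Set.InjOn y K → 0 ≤ ∑ a ∈ K, y a →
  2 * (K.card.choose k : ℝ) ≤
    13 * (((K.powersetCard k).filter (fun B => 0 < ∑ a ∈ B, y a)).card : ℝ)

/-- PAI (pairs): `(2/13)^2 uu <= qq`. -/
def Stmt_PAI : Prop := ∀ (n k j t : ℕ) (x : Fin n → ℝ), 2 ≤ k → 3 * k ≤ t → t ≤ 4 * k →
  n = (j + 4) * k + t → Function.Injective x →
  4 * uu x k j t ≤ 169 * qq x k j

/-- CNT (double counting over the choice of the blocks): with `N = nn x k (j+4)`. -/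
def Stmt_CNT : Prop := ∀ (n k j : ℕ) (x : Fin n → ℝ), 1 ≤ k → (j + 4) * k ≤ n →
  (∑ s : Equiv.Perm (Fin n), (((j + 4) - nn x k (j + 4) s).choose j : ℝ)
      = ((j + 4).choose j : ℝ) * hh x k j) ∧
  (∑ s : Equiv.Perm (Fin n), (((j + 4) - nn x k (j + 4) s).choose j : ℝ) *
      ((nn x k (j + 4) s).choose 2 : ℝ) = 6 * ((j + 4).choose j : ℝ) * qq x k j) ∧
  (hh x k (j + 4) = cnt (fun s => nn x k (j + 4) s = 0))

/-- MEA (mean number of positive blocks). -/
def Stmt_MEA : Prop := ∀ (n k q : ℕ) (x : Fin n → ℝ), 1 ≤ k → q * k ≤ n →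
  (n.choose k : ℝ) * ∑ s : Equiv.Perm (Fin n), (nn x k q s : ℝ)
    = (q : ℝ) * (n.factorial : ℝ) * (pos x k : ℝ)

/-- NUM (the final numerical inequality, `q = j + 4` blocks, `n = q k + t`, `N` positive). -/
def Stmt_NUM : Prop := ∀ (k j t N : ℕ), 2 ≤ k → 3 * k ≤ t → t ≤ 4 * k →
  76 * k ≤ 5 * ((j + 4) * k + t) → N ≤ j + 4 →
  (k : ℝ) / (((j : ℝ) + 4) * k + t) + ((4 * (k : ℝ) + t) / (4 * (((j : ℝ) + 4) * k + t))) *
      (-(if N = 0 then 1 else 0) + ((t : ℝ) / (4 * k + t)) *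
          (((j + 4 - N).choose j : ℝ) / ((j + 4).choose j : ℝ))
        + (169 * (k : ℝ) / t) *
          (((j + 4 - N).choose j : ℝ) * (N.choose 2 : ℝ) / (6 * ((j + 4).choose j : ℝ))))
    ≤ (N : ℝ) / ((j : ℝ) + 4)

/-- FIN1: the strict bound for `n >= 15.2 k`, `k >= 2`. -/
def Stmt_FIN1 : Prop := ∀ (n k : ℕ) (x : Fin n → ℝ), 2 ≤ k → 76 * k ≤ 5 * n →
  Function.Injective x → 0 ≤ ∑ i, x i → (n - 1).choose (k - 1) ≤ pos x k

end Pool.MM15
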