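import Mathlib
import Pool.Agent.Work.MP_9999b5_mm.Interface

set_option autoImplicit false

namespace Pool.MM15

open Finset

namespace EXC

open Classical in
/-- the index of the set of the family which contains the point -/
noncomputable def idx {n : ℕ} {ι : Type} (I : ι → Finset (Fin n)) (p : Fin n) : Option ι :=
  if h : ∃ a, p ∈ I a then some h.choose else none

theorem idx_iff {n : ℕ} {ι : Type} (I : ι → Finset (Fin n))
    (hI : ∀ a b, a ≠ b → Disjoint (I a) (I b)) (p : Fin n) (a : ι) :
    idx I p = some a ↔ p ∈ I a := by
  classical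
  unfold idx
  split_ifs with h
  · constructor
    · intro h2
      have h3 : h.choose = a := by simpa using h2
      rw [← h3]; exact h.choose_spec
    · intro h2
      by_contra h3
      have h4 : h.choose ≠ a := fun h5 => h3 (by rw [h5])
      exact Finset.disjoint_left.1 (hI _ _ h4) h.choose_spec h2
  · constructor
    · intro h2; simp at h2
    · intro h2; exact absurd ⟨a, h2⟩ h

theorem exists_perm {n : ℕ} {ι : Type} [Fintype ι] (I J : ι → Finset (Fin n))
    (hI : ∀ a b, a ≠ b → Disjoint (I a) (I b)) (hJ : ∀ a b, a ≠ b → Disjoint (J a) (J b))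
    (hc : ∀ a, (I a).card = (J a).card) :
    ∃ π : Equiv.Perm (Fin n), ∀ p a, π p ∈ J a ↔ p ∈ I a := by
  classical
  have hcard : ∀ (K : ι → Finset (Fin n)), (∀ a b, a ≠ b → Disjoint (K a) (K b)) → ∀ a,
      Fintype.card {p // idx K p = some a} = (K a).card := by
    intro K hK a
    rw [Fintype.card_subtype]
    congr 1
    ext p
    simp only [Finset.mem_filter, Finset.mem_univ, true_and]
    exact idx_iff K hK p a
  have htot : ∀ (K : ι → Finset (Fin n)), ∑ o : Option ι, Fintype.card {p // idx K p = o} = n := by
    intro K
    have h1 := Fintype.card_congr (Equiv.sigmaFiberEquiv (idx K))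
    rw [Fintype.card_sigma, Fintype.card_fin] at h1
    exact h1
  have hfib : ∀ o : Option ι, Fintype.card {p // idx I p = o} = Fintype.card {p // idx J p = o} := by
    have hs : ∀ a, Fintype.card {p // idx I p = some a} = Fintype.card {p // idx J p = some a} := by
      intro a
      rw [hcard I hI, hcard J hJ, hc]
    intro o
    cases o with
    | some a => exact hs a
    | none =>
      have h1 := htot I
      have h2 := htot J
      rw [Fintype.sum_option] at h1 h2
      have h3 : ∑ a : ι, Fintype.card {p // idx I p = some a}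
          = ∑ a : ι, Fintype.card {p // idx J p = some a} := Finset.sum_congr rfl (fun a _ => hs a)
      omega
  let e : ∀ o : Option ι, {p // idx I p = o} ≃ {p // idx J p = o} :=
    fun o => Fintype.equivOfCardEq (hfib o)
  refine ⟨Equiv.ofFiberEquiv e, fun p a => ?_⟩
  have h := Equiv.ofFiberEquiv_map (f := idx I) (g := idx J) e p
  rw [← idx_iff J hJ, ← idx_iff I hI, h]

end EXC

theorem stmt_EXC : Stmt_EXC := by
  intro n x ι _ I J hI hJ hc Φ
  classical
  obtain ⟨π, hπ⟩ := EXC.exists_perm I J hI hJ hc
  have hsm : ∀ (s : Equiv.Perm (Fin n)) a, sm x (J a) s = sm x (I a) (s * π) := by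
    intro s a
    unfold sm
    refine (Finset.sum_bij (fun p _ => π p) ?_ ?_ ?_ ?_).symm
    · intro p hp; exact (hπ p a).2 hp
    · intro p _ q _ h; exact π.injective h
    · intro q hq
      refine ⟨π.symm q, ?_, by simp⟩
      rw [← hπ]; simpa using hq
    · intro p _; rfl
  unfold cnt
  congr 1
  refine Finset.card_bij (fun s _ => s * π⁻¹) ?_ ?_ ?_
  · intro s hs
    simp only [Finset.mem_filter, Finset.mem_univ, true_and] at hs ⊢
    have h1 : (fun a => sm x (J a) (s * π⁻¹)) = fun a => sm x (I a) s := by
      funext a
      rw [hsm]; simp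
    rw [h1]; exact hs
  · intro s _ t _ h
    exact mul_right_cancel h
  · intro s hs
    simp only [Finset.mem_filter, Finset.mem_univ, true_and] at hs
    refine ⟨s * π, ?_, by simp⟩
    simp only [Finset.mem_filter, Finset.mem_univ, true_and]
    have h1 : (fun a => sm x (I a) (s * π)) = fun a => sm x (J a) s := by
      funext a
      rw [hsm]
    rw [h1]; exact hs

end Pool.MM15
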