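import Pool.Agent.Work.MP_9999b5_mm.Interface

set_option autoImplicit false

/-! NUM: the final numerical inequality. -/

namespace Pool.MM15

open Finset

namespace NUM

theorem clear {K T q A B M : ℝ} (hK : 0 < K) (hT : 0 < T) (hq : 0 < q)
    (h : 4 * K * T * q + q * (T ^ 2 * A + 169 * K * (4 * K + T) * B) ≤ 4 * M * T * (q * K + T)) :
    K / (q * K + T) + ((4 * K + T) / (4 * (q * K + T))) *
      (T / (4 * K + T) * A + (169 * K / T) * B) ≤ M / q := by
  have hn : 0 < q * K + T := by positivity
  have h4 : 0 < 4 * K + T := by positivity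
  have e : K / (q * K + T) + ((4 * K + T) / (4 * (q * K + T))) *
      (T / (4 * K + T) * A + (169 * K / T) * B) =
      (4 * K * T * q + q * (T ^ 2 * A + 169 * K * (4 * K + T) * B)) /
        (4 * T * (q * K + T) * q) := by
    field_simp
  rw [e, div_le_div_iff₀ (by positivity) hq]
  have := mul_le_mul_of_nonneg_right h hq.le
  linarith

theorem ch1 (j : ℕ) : ((j + 1).choose j : ℝ) = (j : ℝ) + 1 := by
  rw [Nat.choose_succ_self_right]; push_cast; ring

theorem ch2 (j : ℕ) : 2 * ((j + 2).choose j : ℝ) = ((j : ℝ) + 2) * (j + 1) := by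
  have h := Nat.choose_mul_succ_eq (j + 1) j
  have h2 : j + 1 + 1 - j = 2 := by omega
  rw [h2] at h
  have h3 : (((j + 1).choose j * (j + 1 + 1) : ℕ) : ℝ) = (((j + 1 + 1).choose j * 2 : ℕ) : ℝ) := by
    exact_mod_cast h
  push_cast at h3
  rw [ch1] at h3
  have : ((j + 1 + 1).choose j : ℝ) = ((j + 2).choose j : ℝ) := rfl
  rw [this] at h3
  linarith

theorem ch3 (j : ℕ) : 6 * ((j + 3).choose j : ℝ) = ((j : ℝ) + 3) * (j + 2) * (j + 1) := by
  have h := Nat.choose_mul_succ_eq (j + 2) j
  have h2 : j + 2 + 1 - j = 3 := by omega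
  rw [h2] at h
  have h3 : (((j + 2).choose j * (j + 2 + 1) : ℕ) : ℝ) = (((j + 2 + 1).choose j * 3 : ℕ) : ℝ) := by
    exact_mod_cast h
  push_cast at h3
  have := ch2 j
  have e : ((j + 2 + 1).choose j : ℝ) = ((j + 3).choose j : ℝ) := rfl
  rw [e] at h3
  nlinarith

theorem ch4 (j : ℕ) : 24 * ((j + 4).choose j : ℝ) =
    ((j : ℝ) + 4) * (j + 3) * (j + 2) * (j + 1) := by
  have h := Nat.choose_mul_succ_eq (j + 3) j
  have h2 : j + 3 + 1 - j = 4 := by omega
  rw [h2] at h
  have h3 : (((j + 3).choose j * (j + 3 + 1) : ℕ) : ℝ) = (((j + 3 + 1).choose j * 4 : ℕ) : ℝ) := by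
    exact_mod_cast h
  push_cast at h3
  have := ch3 j
  have e : ((j + 3 + 1).choose j : ℝ) = ((j + 4).choose j : ℝ) := rfl
  rw [e] at h3
  nlinarith

end NUM

open NUM

set_option maxHeartbeats 4000000 in
theorem stmt_NUM : Stmt_NUM := by
  intro k j t N hk ht1 ht2 hn hN
  have hj : 8 ≤ j := by
    by_contra hcon
    push Not at hcon
    have : (j + 4) * k ≤ 11 * k := Nat.mul_le_mul_right _ (by omega)
    omega
  have hK : (0 : ℝ) < k := by
    have : 0 < k := by omega
    exact_mod_cast this
  have hT1 : 3 * (k : ℝ) ≤ t := by exact_mod_cast ht1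
  have hT2 : (t : ℝ) ≤ 4 * k := by exact_mod_cast ht2
  have hT : (0 : ℝ) < t := by linarith
  have hn' : 76 * (k : ℝ) ≤ 5 * (((j : ℝ) + 4) * k + t) := by exact_mod_cast hn
  have hJ : (8 : ℝ) ≤ j := by exact_mod_cast hj
  have hq : (0 : ℝ) < (j : ℝ) + 4 := by linarith
  have hC : (0 : ℝ) < ((j + 4).choose j : ℝ) := by
    have : 0 < (j + 4).choose j := Nat.choose_pos (by omega)
    exact_mod_cast this
  have h4 := ch4 j
  set K : ℝ := (k : ℝ) with hKd
  set T : ℝ := (t : ℝ) with hTd
  have h4K : 0 < 4 * K + T := by positivity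
  rcases Nat.eq_zero_or_pos N with h0 | hpos
  · subst h0
    have e1 : j + 4 - 0 = j + 4 := rfl
    rw [e1, if_pos rfl, div_self hC.ne']
    have e2 : Nat.choose 0 2 = 0 := rfl
    rw [e2]
    have hnn : 0 < ((j : ℝ) + 4) * K + T := by positivity
    apply le_of_eq
    push_cast
    field_simp
    ring
  · have hN0 : N ≠ 0 := by omega
    rw [if_neg hN0]
    have e0 : (-(0 : ℝ) + (T / (4 * K + T)) *
          (((j + 4 - N).choose j : ℝ) / ((j + 4).choose j : ℝ))
        + (169 * K / T) *
          (((j + 4 - N).choose j : ℝ) * (N.choose 2 : ℝ) / (6 * ((j + 4).choose j : ℝ)))) =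
        (T / (4 * K + T)) *
          (((j + 4 - N).choose j : ℝ) / ((j + 4).choose j : ℝ))
        + (169 * K / T) *
          (((j + 4 - N).choose j : ℝ) * (N.choose 2 : ℝ) / (6 * ((j + 4).choose j : ℝ))) := by
      ring
    rw [e0]
    apply clear hK hT hq
    -- the values of the two quotients
    obtain ⟨q, hqd⟩ : ∃ q : ℝ, q = (j : ℝ) + 4 := ⟨_, rfl⟩
    have hq12 : 12 ≤ q := by linarith
    have hcase : N = 1 ∨ N = 2 ∨ N = 3 ∨ N = 4 ∨ 5 ≤ N := by omega
    have hjq : (j : ℝ) = q - 4 := by linarith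
    rw [← hqd]
    rw [hjq] at h4
    have h4' : ((j + 4).choose j : ℝ) = q * (q - 1) * (q - 2) * (q - 3) / 24 := by
      have : (q - 4 + 4) * (q - 4 + 3) * (q - 4 + 2) * (q - 4 + 1) =
        q * (q - 1) * (q - 2) * (q - 3) := by ring
      linarith
    have q1 : 0 < q - 1 := by linarith
    have q2 : 0 < q - 2 := by linarith
    have q3 : 0 < q - 3 := by linarith
    have q0 : 0 < q := by linarith
    have hn'' : 76 * K ≤ 5 * (q * K + T) := by rw [hqd]; exact hn'
    rcases hcase with h | h | h | h | h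
    · subst h
      have e1 : j + 4 - 1 = j + 3 := rfl
      have e2 : Nat.choose 1 2 = 0 := rfl
      have h3 := ch3 j
      rw [hjq] at h3
      have h3' : ((j + 3).choose j : ℝ) = (q - 1) * (q - 2) * (q - 3) / 6 := by
        have : (q - 4 + 3) * (q - 4 + 2) * (q - 4 + 1) = (q - 1) * (q - 2) * (q - 3) := by ring
        linarith
      have hA : ((j + 3).choose j : ℝ) / ((j + 4).choose j : ℝ) = 4 / q := by
        rw [h3', h4']; field_simp; ring
      rw [e1, hA, e2]
      apply le_of_eq
      push_cast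
      field_simp
      ring
    · subst h
      have e1 : j + 4 - 2 = j + 2 := rfl
      have e2 : Nat.choose 2 2 = 1 := rfl
      have h2 := ch2 j
      rw [hjq] at h2
      have h2' : ((j + 2).choose j : ℝ) = (q - 2) * (q - 3) / 2 := by
        have : (q - 4 + 2) * (q - 4 + 1) = (q - 2) * (q - 3) := by ring
        linarith
      have hA : ((j + 2).choose j : ℝ) / ((j + 4).choose j : ℝ) = 12 / (q * (q - 1)) := by
        rw [h2', h4']; field_simp; ring
      have hB : ((j + 2).choose j : ℝ) * ((1 : ℕ) : ℝ) / (6 * ((j + 4).choose j : ℝ)) =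
          2 / (q * (q - 1)) := by
        rw [h2', h4']; field_simp; ring
      rw [e1, hA, e2, hB]
      have hl : 4 * K * T * q + q * (T ^ 2 * (12 / (q * (q - 1))) +
          169 * K * (4 * K + T) * (2 / (q * (q - 1)))) =
          4 * K * T * q + (12 * T ^ 2 + 338 * K * (4 * K + T)) / (q - 1) := by
        field_simp
        ring
      rw [hl]
      have hmain : 12 * T ^ 2 + 338 * K * (4 * K + T) ≤ 4 * T * (q - 1) * (q * K + 2 * T) := by
        rcases Nat.lt_or_ge j 9 with hj9 | hj9
        · have : j = 8 := by omega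
          have hq' : q = 12 := by rw [hqd, this]; norm_num
          subst hq'
          have h16 : 16 * K ≤ 5 * T := by linarith
          nlinarith [mul_nonneg (by linarith : (0 : ℝ) ≤ 5 * T - 16 * K) hK.le,
            mul_nonneg (by linarith : (0 : ℝ) ≤ 5 * T - 16 * K) hT.le]
        · have hq13 : 13 ≤ q := by
            have : (9 : ℝ) ≤ j := by exact_mod_cast hj9
            linarith
          have s1 : 4 * T * (13 - 1) * (13 * K + 2 * T) ≤ 4 * T * (q - 1) * (q * K + 2 * T) := by
            have u1 : 4 * T * (13 - 1) ≤ 4 * T * (q - 1) := by nlinarith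
            have u2 : 13 * K + 2 * T ≤ q * K + 2 * T := by nlinarith
            exact mul_le_mul u1 u2 (by positivity) (by positivity)
          nlinarith [mul_nonneg (by linarith : (0 : ℝ) ≤ T - 3 * K) hK.le,
            mul_nonneg (by linarith : (0 : ℝ) ≤ T - 3 * K) hT.le]
      have : (12 * T ^ 2 + 338 * K * (4 * K + T)) / (q - 1) ≤ 4 * T * (q * K + 2 * T) := by
        rw [div_le_iff₀ q1]; linarith
      push_cast
      nlinarith [this]
    · subst h
      have e1 : j + 4 - 3 = j + 1 := rfl
      have e2 : Nat.choose 3 2 = 3 := rfl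
      have h1' : ((j + 1).choose j : ℝ) = q - 3 := by rw [ch1]; linarith
      have hA : ((j + 1).choose j : ℝ) / ((j + 4).choose j : ℝ) =
          24 / (q * (q - 1) * (q - 2)) := by
        rw [h1', h4']; field_simp
      have hB : ((j + 1).choose j : ℝ) * ((3 : ℕ) : ℝ) / (6 * ((j + 4).choose j : ℝ)) =
          12 / (q * (q - 1) * (q - 2)) := by
        rw [h1', h4']; push_cast; field_simp; ring
      rw [e1, hA, e2, hB]
      have hl : 4 * K * T * q + q * (T ^ 2 * (24 / (q * (q - 1) * (q - 2))) +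
          169 * K * (4 * K + T) * (12 / (q * (q - 1) * (q - 2)))) =
          4 * K * T * q + (24 * T ^ 2 + 2028 * K * (4 * K + T)) / ((q - 1) * (q - 2)) := by
        field_simp
        ring
      rw [hl]
      have hqq : 110 ≤ (q - 1) * (q - 2) := by nlinarith
      have : (24 * T ^ 2 + 2028 * K * (4 * K + T)) / ((q - 1) * (q - 2)) ≤
          (24 * T ^ 2 + 2028 * K * (4 * K + T)) / 110 :=
        div_le_div_of_nonneg_left (by positivity) (by norm_num) hqq
      have hKT : 12 * (K * T) ≤ q * (K * T) := mul_le_mul_of_nonneg_right hq12 (by positivity)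
      push_cast
      nlinarith [this, hKT, mul_nonneg (by linarith : (0 : ℝ) ≤ T - 3 * K) hK.le,
            mul_nonneg (by linarith : (0 : ℝ) ≤ T - 3 * K) hT.le]
    · subst h
      have e1 : j + 4 - 4 = j := rfl
      have e2 : Nat.choose 4 2 = 6 := rfl
      have h1' : ((j).choose j : ℝ) = 1 := by rw [Nat.choose_self]; norm_num
      have hA : ((j).choose j : ℝ) / ((j + 4).choose j : ℝ) =
          24 / (q * (q - 1) * (q - 2) * (q - 3)) := by
        rw [h1', h4']; field_simp
      have hB : ((j).choose j : ℝ) * ((6 : ℕ) : ℝ) / (6 * ((j + 4).choose j : ℝ)) =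
          24 / (q * (q - 1) * (q - 2) * (q - 3)) := by
        rw [h1', h4']; push_cast; field_simp
      rw [e1, hA, e2, hB]
      have hl : 4 * K * T * q + q * (T ^ 2 * (24 / (q * (q - 1) * (q - 2) * (q - 3))) +
          169 * K * (4 * K + T) * (24 / (q * (q - 1) * (q - 2) * (q - 3)))) =
          4 * K * T * q + (24 * T ^ 2 + 4056 * K * (4 * K + T)) /
            ((q - 1) * (q - 2) * (q - 3)) := by
        field_simp
        ring
      rw [hl]
      have hqq : 990 ≤ (q - 1) * (q - 2) * (q - 3) := by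
        have : 110 ≤ (q - 1) * (q - 2) := by nlinarith
        nlinarith
      have : (24 * T ^ 2 + 4056 * K * (4 * K + T)) / ((q - 1) * (q - 2) * (q - 3)) ≤
          (24 * T ^ 2 + 4056 * K * (4 * K + T)) / 990 :=
        div_le_div_of_nonneg_left (by positivity) (by norm_num) hqq
      have hKT : 12 * (K * T) ≤ q * (K * T) := mul_le_mul_of_nonneg_right hq12 (by positivity)
      push_cast
      nlinarith [this, hKT, mul_nonneg (by linarith : (0 : ℝ) ≤ T - 3 * K) hK.le,
            mul_nonneg (by linarith : (0 : ℝ) ≤ T - 3 * K) hT.le]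
    · have e1 : (j + 4 - N).choose j = 0 := Nat.choose_eq_zero_of_lt (by omega)
      rw [e1]
      have hN1 : (1 : ℝ) ≤ N := by
        have : 1 ≤ N := by omega
        exact_mod_cast this
      have a1 : 1 * (4 * T * (q * K + T)) ≤ N * (4 * T * (q * K + T)) :=
        mul_le_mul_of_nonneg_right hN1 (by positivity)
      have a2 : 0 ≤ T ^ 2 := by positivity
      simp only [Nat.cast_zero, zero_div, zero_mul, mul_zero, add_zero]
      nlinarith [a1, a2]

end Pool.MM15
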